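import Mathlib

/-
Closed form asymptotics of the number of regular elements of the monoid of n by n Boolean matrices.
-/

namespace Pool.Agent.Results.MP_72200a_co.RegularBooleanClosedForm

open Finset Filter Topology

/-- The product of two Boolean matrices: entry (i,j) is the maximum over k of min(A i k, B k j). -/
def bmul {n : ℕ} (A B : Fin n → Fin n → Bool) : Fin n → Fin n → Bool :=
  fun i j => decide (∃ k, A i k = true ∧ B k j = true)

/-- A Boolean matrix A is regular if A X A = A for some Boolean matrix X. -/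
def IsRegular {n : ℕ} (A : Fin n → Fin n → Bool) : Prop := ∃ X, bmul (bmul A X) A = A

/-- The number of regular n by n Boolean matrices. -/
noncomputable def numRegular (n : ℕ) : ℕ := Nat.card {A : Fin n → Fin n → Bool // IsRegular A}

/-- Sanity check: idempotent matrices are regular. -/
theorem isRegular_of_idem {n : ℕ} (A : Fin n → Fin n → Bool) (h : bmul A A = A) : IsRegular A :=
  ⟨A, by rw [h, h]⟩

/-- row inclusion -/
def le {n : ℕ} (A : Fin n → Fin n → Bool) (l l' : Fin n) : Prop := ∀ c, A l c = true → A l' c = true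

def Irr {n : ℕ} (A : Fin n → Fin n → Bool) (l : Fin n) : Prop :=
  ∃ c, A l c = true ∧ ∀ l', le A l' l → A l' c = true → le A l l'

def InJ {n : ℕ} (A : Fin n → Fin n → Bool) (l : Fin n) : Prop :=
  Irr A l ∧ ∀ l', l' < l → ¬ (le A l l' ∧ le A l' l)

theorem le_trans' {n : ℕ} {A : Fin n → Fin n → Bool} {a b c : Fin n} (h1 : le A a b) (h2 : le A b c) :
    le A a c := fun x hx => h2 x (h1 x hx)

theorem le_refl' {n : ℕ} {A : Fin n → Fin n → Bool} (a : Fin n) : le A a a := fun _ h => h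

theorem exists_J {n : ℕ} (A : Fin n → Fin n → Bool) (l c : Fin n) (h : A l c = true) :
    ∃ i, InJ A i ∧ le A i l ∧ A i c = true := by
  classical
  let wt : Fin n → ℕ := fun i => (univ.filter (fun c => A i c = true)).card
  let g : Fin n → ℕ := fun i => wt i * (n+1) + i.val
  obtain ⟨i, hi, hmin⟩ := Finset.exists_min_image (univ.filter (fun i => le A i l ∧ A i c = true)) g
    ⟨l, by simp [h, le_refl']⟩
  simp only [mem_filter, mem_univ, true_and] at hi hmin
  have key : ∀ l', le A l' i → A l' c = true → le A i l' := by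
    intro l' h1 h2
    by_contra h3
    have hm := hmin l' ⟨le_trans' h1 hi.1, h2⟩
    have hlt : wt l' < wt i := by
      apply Finset.card_lt_card
      rw [Finset.ssubset_iff_of_subset]
      · unfold le at h3
        push Not at h3
        obtain ⟨x, hx1, hx2⟩ := h3
        exact ⟨x, by simp [hx1], by simpa using hx2⟩
      · intro x hx
        simp only [mem_filter, mem_univ, true_and] at hx ⊢
        exact h1 x hx
    have hl' := l'.isLt
    have : (wt l' + 1) * (n+1) ≤ wt i * (n+1) := Nat.mul_le_mul_right _ hlt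
    simp only [g] at hm
    nlinarith
  refine ⟨i, ⟨⟨c, hi.2, key⟩, ?_⟩, hi.1, hi.2⟩
  rintro l' hl' ⟨h1, h2⟩
  have hm := hmin l' ⟨le_trans' h2 hi.1, h1 c hi.2⟩
  have : wt l' = wt i := by
    simp only [wt]
    congr 1
    ext x
    simp only [mem_filter, mem_univ, true_and]
    exact ⟨h2 x, h1 x⟩
  simp only [g, this] at hm
  have : l'.val < i.val := hl'
  omega

theorem bmul_apply {n : ℕ} (A B : Fin n → Fin n → Bool) (i j : Fin n) :
    bmul A B i j = true ↔ ∃ k, A i k = true ∧ B k j = true := by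
  simp [bmul]

theorem exists_col {n : ℕ} {A : Fin n → Fin n → Bool} (hA : IsRegular A) (i : Fin n) (hi : Irr A i) :
    ∃ j, ∀ l, A l j = true ↔ le A i l := by
  obtain ⟨X, hX⟩ := hA
  have hh : ∀ l c, A l c = true ↔ ∃ q, (∃ p, A l p = true ∧ X p q = true) ∧ A q c = true := by
    intro l c
    conv_lhs => rw [← hX]
    rw [bmul_apply]
    simp only [bmul_apply]
  obtain ⟨c, hc, hmin⟩ := hi
  obtain ⟨q, ⟨p, hp, hpq⟩, hqc⟩ := (hh i c).1 hc
  have hqi : le A q i := fun c' hc' => (hh i c').2 ⟨q, ⟨p, hp, hpq⟩, hc'⟩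
  have hiq := hmin q hqi hqc
  refine ⟨p, fun l => ⟨fun hl c' hc' => (hh l c').2 ⟨q, ⟨p, hl, hpq⟩, hiq c' hc'⟩, fun hl => hl p hp⟩⟩

/-- the code property -/
structure Good {n r : ℕ} (A : Fin n → Fin n → Bool) (e j : Fin r → Fin n) : Prop where
  refl : ∀ i, A (e i) (j i) = true
  anti : ∀ i i', A (e i') (j i) = true → A (e i) (j i') = true → i = i'
  down : ∀ l i i', A (e i') (j i) = true → A l (j i') = true → A l (j i) = true
  up : ∀ c i i', A (e i') (j i) = true → A (e i) c = true → A (e i') c = true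
  all : ∀ l c, A l c = true ↔ ∃ i, A l (j i) = true ∧ A (e i) c = true

theorem exists_good {n : ℕ} (A : Fin n → Fin n → Bool) (hA : IsRegular A) :
    ∃ s : Finset (Fin n), ∃ j : Fin s.card ↪ Fin n, Good A (s.orderEmbOfFin rfl) j := by
  classical
  let s : Finset (Fin n) := univ.filter (fun i => InJ A i)
  have hs : ∀ i, i ∈ s ↔ InJ A i := by intro i; simp [s]
  choose! jj hjj using fun i (hi : Irr A i) => exists_col hA i hi
  let e := s.orderEmbOfFin rfl
  have he : ∀ i, InJ A (e i) := fun i => (hs _).1 (s.orderEmbOfFin_mem rfl i)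
  have hj : ∀ i l, A l (jj (e i)) = true ↔ le A (e i) l := fun i l => hjj (e i) (he i).1 l
  have anti : ∀ i i', le A (e i) (e i') → le A (e i') (e i) → i = i' := by
    intro i i' h1 h2
    rcases lt_trichotomy i i' with h | h | h
    · exact absurd ⟨h2, h1⟩ ((he i').2 (e i) (e.strictMono h))
    · exact h
    · exact absurd ⟨h1, h2⟩ ((he i).2 (e i') (e.strictMono h))
  have hinj : Function.Injective (fun i => jj (e i)) := by
    intro i i' h
    simp only at h
    apply anti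
    · have := (hj i' (e i')).2 (le_refl' _)
      rw [← h] at this
      exact (hj i _).1 this
    · have := (hj i (e i)).2 (le_refl' _)
      rw [h] at this
      exact (hj i' _).1 this
  refine ⟨s, ⟨fun i => jj (e i), hinj⟩, ?_⟩
  constructor
  · intro i; exact (hj i _).2 (le_refl' _)
  · intro i i' h1 h2; exact anti i i' ((hj _ _).1 h1) ((hj _ _).1 h2)
  · intro l i i' h1 h2; exact (hj _ _).2 (le_trans' ((hj _ _).1 h1) ((hj _ _).1 h2))
  · intro c i i' h1 h2; exact (hj _ _).1 h1 c h2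
  · intro l c
    constructor
    · intro h
      obtain ⟨i, hi1, hi2, hi3⟩ := exists_J A l c h
      have : i ∈ Set.range e := by
        rw [Finset.range_orderEmbOfFin]
        exact (hs i).2 hi1
      obtain ⟨i', rfl⟩ := this
      exact ⟨i', (hj _ _).2 hi2, hi3⟩
    · rintro ⟨i, h1, h2⟩
      exact (hj _ _).1 h1 c h2

/-- posets with a monotone map to the cube -/
def S (α β : Type) : Type :=
  {p : (α → α → Bool) × (α → β → Bool) //
    (∀ x, p.1 x x = true) ∧ (∀ x y, p.1 x y = true → p.1 y x = true → x = y) ∧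
    (∀ x y z, p.1 x y = true → p.1 y z = true → p.1 x z = true) ∧
    (∀ x y, p.1 x y = true → ∀ b, p.2 x b = true → p.2 y b = true)}

noncomputable instance (α β : Type) [Fintype α] [Fintype β] [DecidableEq α] [DecidableEq β] :
    Fintype (S α β) := by unfold S; classical infer_instance

instance (α β : Type) [Finite α] [Finite β] : Finite (S α β) := by unfold S; infer_instance

noncomputable def W (r N : ℕ) : ℕ := Nat.card (S (Fin r) (Fin N))

def S.congr {α α' β β' : Type} (f : α ≃ α') (g : β ≃ β') : S α β ≃ S α' β' where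
  toFun p := ⟨(fun x y => p.1.1 (f.symm x) (f.symm y), fun x b => p.1.2 (f.symm x) (g.symm b)), by
    obtain ⟨p, h1, h2, h3, h4⟩ := p
    refine ⟨fun x => h1 _, fun x y a b => f.symm.injective (h2 _ _ a b), fun x y z => h3 _ _ _,
      fun x y a b => h4 _ _ a _⟩⟩
  invFun p := ⟨(fun x y => p.1.1 (f x) (f y), fun x b => p.1.2 (f x) (g b)), by
    obtain ⟨p, h1, h2, h3, h4⟩ := p
    refine ⟨fun x => h1 _, fun x y a b => f.injective (h2 _ _ a b), fun x y z => h3 _ _ _,
      fun x y a b => h4 _ _ a _⟩⟩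
  left_inv p := by
    apply Subtype.ext
    simp
  right_inv p := by
    apply Subtype.ext
    simp

theorem card_S (α β : Type) [Fintype α] [Fintype β] : Nat.card (S α β) = W (Fintype.card α) (Fintype.card β) := by
  unfold W
  exact Nat.card_congr (S.congr (Fintype.equivFin α) (Fintype.equivFin β))

theorem card_good {n r : ℕ} (e j : Fin r → Fin n) (he : Function.Injective e) (hj : Function.Injective j) :
    Nat.card {A : Fin n → Fin n → Bool // Good A e j} ≤ W r (2 * (n - r)) := by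
  classical
  have hc : Fintype.card ({l // l ∉ Set.range e} ⊕ {c // c ∉ Set.range j}) = 2 * (n - r) := by
    rw [Fintype.card_sum, Fintype.card_subtype_compl, Fintype.card_subtype_compl]
    have h1 : Fintype.card {x // x ∈ Set.range e} = r := by
      rw [show Fintype.card {x // x ∈ Set.range e} = Fintype.card (Fin r) from
        Fintype.card_congr (Equiv.ofInjective e he).symm]
      simp
    have h2 : Fintype.card {x // x ∈ Set.range j} = r := by
      rw [show Fintype.card {x // x ∈ Set.range j} = Fintype.card (Fin r) from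
        Fintype.card_congr (Equiv.ofInjective j hj).symm]
      simp
    rw [h1, h2]
    simp
    ring
  have := card_S (Fin r) ({l // l ∉ Set.range e} ⊕ {c // c ∉ Set.range j})
  rw [hc, Fintype.card_fin] at this
  rw [← this]
  apply Nat.card_le_card_of_injective (fun A : {A : Fin n → Fin n → Bool // Good A e j} =>
    (⟨(fun i i' => A.1 (e i') (j i), fun i b => Sum.elim (fun l => ! (A.1 l.1 (j i)))
      (fun c => A.1 (e i) c.1) b), by
        obtain ⟨A, hA⟩ := A
        refine ⟨hA.refl, hA.anti, fun x y z h1 h2 => hA.down _ _ _ h1 h2, ?_⟩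
        rintro x y h1 (b | b) h2
        · simp only [Sum.elim_inl, Bool.not_eq_eq_eq_not, Bool.not_true] at h2 ⊢
          by_contra h3
          rw [Bool.not_eq_false] at h3
          have := hA.down _ _ _ h1 h3
          rw [this] at h2
          exact absurd h2 (by simp)
        · simp only [Sum.elim_inr] at h2 ⊢
          exact hA.up _ _ _ h1 h2⟩ : S (Fin r) ({l // l ∉ Set.range e} ⊕ {c // c ∉ Set.range j})))
  intro A A' h
  have h := congrArg Subtype.val h
  simp only [Prod.mk.injEq] at h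
  obtain ⟨h1, h2⟩ := h
  have c1 : ∀ l i, A.1 l (j i) = A'.1 l (j i) := by
    intro l i
    by_cases hl : l ∈ Set.range e
    · obtain ⟨i', rfl⟩ := hl
      exact congrFun (congrFun h1 i) i'
    · have := congrFun (congrFun h2 i) (Sum.inl ⟨l, hl⟩)
      simpa using this
  have c2 : ∀ c i, A.1 (e i) c = A'.1 (e i) c := by
    intro c i
    by_cases hl : c ∈ Set.range j
    · obtain ⟨i', rfl⟩ := hl
      exact congrFun (congrFun h1 i') i
    · have := congrFun (congrFun h2 i) (Sum.inr ⟨c, hl⟩)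
      simpa using this
  apply Subtype.ext
  ext l c
  rw [Bool.eq_iff_iff, A.2.all, A'.2.all]
  simp only [c1, c2]

theorem rr_upper (n : ℕ) : numRegular n ≤ ∑ r ∈ range (n+1), (n.choose r)^2 * r.factorial * W r (2 * (n - r)) := by
  classical
  unfold numRegular
  rw [Nat.card_eq_fintype_card, Fintype.card_subtype]
  have hsub : (univ.filter (fun A : Fin n → Fin n → Bool => IsRegular A)) ⊆
      (univ : Finset (Finset (Fin n))).biUnion (fun s => (univ : Finset (Fin s.card ↪ Fin n)).biUnion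
        (fun j => univ.filter (fun A => Good A (s.orderEmbOfFin rfl) j))) := by
    intro A hA
    simp only [mem_filter, mem_univ, true_and] at hA
    obtain ⟨s, j, h⟩ := exists_good A hA
    simp only [mem_biUnion, mem_univ, mem_filter, true_and]
    exact ⟨s, j, h⟩
  refine (Finset.card_le_card hsub).trans (Finset.card_biUnion_le.trans ?_)
  have h1 : ∀ s : Finset (Fin n), ((univ : Finset (Fin s.card ↪ Fin n)).biUnion
        (fun j => univ.filter (fun A => Good A (s.orderEmbOfFin rfl) j))).card ≤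
        n.descFactorial s.card * W s.card (2 * (n - s.card)) := by
    intro s
    refine Finset.card_biUnion_le.trans ?_
    calc _ ≤ ∑ j : Fin s.card ↪ Fin n, W s.card (2 * (n - s.card)) := by
          apply Finset.sum_le_sum
          intro j _
          rw [← Fintype.card_subtype, ← Nat.card_eq_fintype_card]
          exact card_good _ _ (s.orderEmbOfFin rfl).injective j.injective
      _ = _ := by
          rw [Finset.sum_const, Finset.card_univ, Fintype.card_embedding_eq]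
          simp
  refine (Finset.sum_le_sum (fun s _ => h1 s)).trans (le_of_eq ?_)
  have := Finset.sum_powerset_apply_card (x := (univ : Finset (Fin n)))
    (fun r => n.descFactorial r * W r (2 * (n - r)))
  rw [Finset.powerset_univ] at this
  rw [this]
  simp only [Finset.card_univ, Fintype.card_fin, smul_eq_mul]
  apply Finset.sum_congr rfl
  intro r _
  rw [Nat.descFactorial_eq_factorial_mul_choose]
  ring

/-- normal-form codes for the lower bound -/
structure Good2 {n r : ℕ} (A : Fin n → Fin n → Bool) (e j : Fin r → Fin n) : Prop where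
  id : ∀ i i', A (e i') (j i) = true ↔ i = i'
  row : ∀ l, l ∉ Set.range e → (univ.filter (fun i => A l (j i) = true)).card ≠ 1
  col : ∀ c, c ∉ Set.range j → (univ.filter (fun i => A (e i) c = true)).card ≠ 1
  all : ∀ l c, A l c = true ↔ ∃ i, A l (j i) = true ∧ A (e i) c = true

theorem Good2.regular {n r : ℕ} {A : Fin n → Fin n → Bool} {e j : Fin r → Fin n} (h : Good2 A e j) :
    IsRegular A := by
  classical
  refine ⟨fun p q => decide (∃ i, p = j i ∧ q = e i), ?_⟩
  ext l c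
  rw [Bool.eq_iff_iff, bmul_apply]
  simp only [bmul_apply, decide_eq_true_eq]
  rw [h.all l c]
  constructor
  · rintro ⟨q, ⟨p, hp, i, rfl, rfl⟩, hq⟩
    exact ⟨i, hp, hq⟩
  · rintro ⟨i, h1, h2⟩
    exact ⟨e i, ⟨j i, h1, i, rfl, rfl⟩, h2⟩

theorem Good2.irr {n r : ℕ} {A : Fin n → Fin n → Bool} {e j : Fin r → Fin n} (h : Good2 A e j) (l : Fin n) :
    Irr A l ↔ l ∈ Set.range e := by
  classical
  constructor
  · rintro ⟨c, hc, hmin⟩
    by_contra hl
    obtain ⟨i, hi1, hi2⟩ := (h.all l c).1 hc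
    have h1 : le A (e i) l := fun c' hc' => (h.all l c').2 ⟨i, hi1, hc'⟩
    have h2 := hmin _ h1 hi2
    apply h.row l hl
    rw [Finset.card_eq_one]
    refine ⟨i, ?_⟩
    ext i'
    simp only [mem_filter, mem_univ, true_and, mem_singleton]
    constructor
    · intro h3
      exact (h.id _ _).1 (h2 _ h3)
    · rintro rfl
      exact hi1
  · rintro ⟨i, rfl⟩
    refine ⟨j i, (h.id _ _).2 rfl, ?_⟩
    intro l' hl' hl'' c hc
    exact (h.all l' c).2 ⟨i, hl'', hc⟩

theorem Good2.transpose {n r : ℕ} {A : Fin n → Fin n → Bool} {e j : Fin r → Fin n} (h : Good2 A e j) :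
    Good2 (fun x y => A y x) j e := by
  refine ⟨fun i i' => ?_, h.col, h.row, fun l c => ?_⟩
  · rw [h.id]; exact eq_comm
  · rw [h.all]
    constructor
    · rintro ⟨i, a, b⟩; exact ⟨i, b, a⟩
    · rintro ⟨i, a, b⟩; exact ⟨i, b, a⟩

theorem Good2.unique {n r : ℕ} {A : Fin n → Fin n → Bool} {e j j' : Fin r → Fin n} (h : Good2 A e j)
    (h' : Good2 A e j') : j = j' := by
  have h1 : ∀ l, l ∈ Set.range j ↔ l ∈ Set.range j' := by
    intro l
    rw [← h.transpose.irr, ← h'.transpose.irr]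
  funext i
  obtain ⟨i', hi'⟩ := (h1 (j i)).1 ⟨i, rfl⟩
  have h2 : A (e i) (j i) = true := (h.id _ _).2 rfl
  rw [← hi', h'.id] at h2
  rw [← hi', h2]

/-- construct matrix -/
noncomputable def ext1 {n r : ℕ} (e : Fin r → Fin n) (D : {l // l ∉ Set.range e} → {D : Finset (Fin r) // D.card ≠ 1})
    (l : Fin n) : Finset (Fin r) := by
  classical
  exact if h : l ∈ Set.range e then {h.choose} else (D ⟨l, h⟩).1

theorem ext1_e {n r : ℕ} (e : Fin r → Fin n) (he : Function.Injective e)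
    (D : {l // l ∉ Set.range e} → {D : Finset (Fin r) // D.card ≠ 1}) (i : Fin r) :
    ext1 e D (e i) = {i} := by
  unfold ext1
  have h : e i ∈ Set.range e := ⟨i, rfl⟩
  rw [dif_pos h]
  congr 1
  exact he h.choose_spec

theorem ext1_not {n r : ℕ} (e : Fin r → Fin n)
    (D : {l // l ∉ Set.range e} → {D : Finset (Fin r) // D.card ≠ 1}) (l : Fin n) (h : l ∉ Set.range e) :
    ext1 e D l = (D ⟨l, h⟩).1 := by
  unfold ext1
  rw [dif_neg h]

theorem card_ne_one (r : ℕ) : Fintype.card {D : Finset (Fin r) // D.card ≠ 1} = 2^r - r := by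
  have h := Fintype.card_subtype_compl (fun D : Finset (Fin r) => D.card = 1)
  rw [show Fintype.card {D : Finset (Fin r) // D.card ≠ 1} = Fintype.card {D : Finset (Fin r) // ¬ D.card = 1} from rfl]
  rw [h, Fintype.card_finset_len]
  simp

theorem card_good2 {n r : ℕ} (e j : Fin r → Fin n) (he : Function.Injective e) (hj : Function.Injective j) :
    (2^r - r)^(2 * (n - r)) ≤ Nat.card {A : Fin n → Fin n → Bool // Good2 A e j} := by
  classical
  have hc : Nat.card (({l // l ∉ Set.range e} → {D : Finset (Fin r) // D.card ≠ 1}) ×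
      ({c // c ∉ Set.range j} → {D : Finset (Fin r) // D.card ≠ 1})) = (2^r - r)^(2 * (n - r)) := by
    rw [Nat.card_eq_fintype_card]
    rw [Fintype.card_prod, Fintype.card_fun, Fintype.card_fun, card_ne_one,
      Fintype.card_subtype_compl, Fintype.card_subtype_compl]
    have h1 : Fintype.card {x // x ∈ Set.range e} = r := by
      rw [show Fintype.card {x // x ∈ Set.range e} = Fintype.card (Fin r) from
        Fintype.card_congr (Equiv.ofInjective e he).symm]
      simp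
    have h2 : Fintype.card {x // x ∈ Set.range j} = r := by
      rw [show Fintype.card {x // x ∈ Set.range j} = Fintype.card (Fin r) from
        Fintype.card_congr (Equiv.ofInjective j hj).symm]
      simp
    rw [h1, h2, ← pow_add]
    congr 1
    simp
    ring
  rw [← hc]
  have hrow : ∀ (D : ({l // l ∉ Set.range e} → {D : Finset (Fin r) // D.card ≠ 1}) ×
      ({c // c ∉ Set.range j} → {D : Finset (Fin r) // D.card ≠ 1})) (l : Fin n) (i : Fin r),
      (decide (∃ i', i' ∈ ext1 e D.1 l ∧ i' ∈ ext1 j D.2 (j i))) = true ↔ i ∈ ext1 e D.1 l := by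
    intro D l i
    rw [ext1_e j hj]
    simp
  have hcol : ∀ (D : ({l // l ∉ Set.range e} → {D : Finset (Fin r) // D.card ≠ 1}) ×
      ({c // c ∉ Set.range j} → {D : Finset (Fin r) // D.card ≠ 1})) (c : Fin n) (i : Fin r),
      (decide (∃ i', i' ∈ ext1 e D.1 (e i) ∧ i' ∈ ext1 j D.2 c)) = true ↔ i ∈ ext1 j D.2 c := by
    intro D c i
    rw [ext1_e e he]
    simp
  apply Nat.card_le_card_of_injective (fun D : ({l // l ∉ Set.range e} → {D : Finset (Fin r) // D.card ≠ 1}) ×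
      ({c // c ∉ Set.range j} → {D : Finset (Fin r) // D.card ≠ 1}) =>
      (⟨fun l c => decide (∃ i, i ∈ ext1 e D.1 l ∧ i ∈ ext1 j D.2 c), by
        constructor
        · intro i i'
          rw [hrow, ext1_e e he]
          simp
        · intro l hl
          simp only [hrow]
          rw [ext1_not e _ _ hl]
          simpa using (D.1 ⟨l, hl⟩).2
        · intro c hc
          simp only [hcol]
          rw [ext1_not j _ _ hc]
          simpa using (D.2 ⟨c, hc⟩).2
        · intro l c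
          simp only [hrow, hcol]
          simp⟩ : {A : Fin n → Fin n → Bool // Good2 A e j}))
  intro D D' h
  have h := congrArg Subtype.val h
  simp only at h
  have h1 : ∀ l, ext1 e D.1 l = ext1 e D'.1 l := by
    intro l
    ext i
    rw [← hrow D l i, ← hrow D' l i, ← Bool.eq_iff_iff]
    exact congrFun (congrFun h l) (j i)
  have h2 : ∀ c, ext1 j D.2 c = ext1 j D'.2 c := by
    intro c
    ext i
    rw [← hcol D c i, ← hcol D' c i, ← Bool.eq_iff_iff]
    exact congrFun (congrFun h (e i)) c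
  apply Prod.ext
  · funext l
    apply Subtype.ext
    have := h1 l.1
    rwa [ext1_not e _ _ l.2, ext1_not e _ _ l.2] at this
  · funext c
    apply Subtype.ext
    have := h2 c.1
    rwa [ext1_not j _ _ c.2, ext1_not j _ _ c.2] at this

theorem rr_lower (n : ℕ) :
    ∑ r ∈ range (n+1), (n.choose r)^2 * r.factorial * (2^r - r)^(2 * (n - r)) ≤ numRegular n := by
  classical
  unfold numRegular
  rw [Nat.card_eq_fintype_card, Fintype.card_subtype]
  rw [Finset.card_eq_sum_card_fiberwise (f := fun A => univ.filter (fun l => Irr A l))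
    (t := (univ : Finset (Finset (Fin n)))) (fun _ _ => by simp)]
  have h1 : ∀ s : Finset (Fin n), n.descFactorial s.card * (2^s.card - s.card)^(2 * (n - s.card)) ≤
      ((univ.filter (fun A : Fin n → Fin n → Bool => IsRegular A)).filter
        (fun A => univ.filter (fun l => Irr A l) = s)).card := by
    intro s
    have hsub : (univ : Finset (Fin s.card ↪ Fin n)).biUnion
        (fun j => univ.filter (fun A => Good2 A (s.orderEmbOfFin rfl) j)) ⊆
        ((univ.filter (fun A : Fin n → Fin n → Bool => IsRegular A)).filter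
        (fun A => univ.filter (fun l => Irr A l) = s)) := by
      intro A hA
      simp only [mem_biUnion, mem_univ, mem_filter, true_and] at hA ⊢
      obtain ⟨j, hj⟩ := hA
      refine ⟨hj.regular, ?_⟩
      ext l
      simp only [mem_filter, mem_univ, true_and]
      rw [hj.irr, Finset.range_orderEmbOfFin]
      simp
    refine le_trans ?_ (Finset.card_le_card hsub)
    rw [Finset.card_biUnion]
    · calc _ = ∑ j : Fin s.card ↪ Fin n, (2^s.card - s.card)^(2 * (n - s.card)) := by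
            rw [Finset.sum_const, Finset.card_univ, Fintype.card_embedding_eq]
            simp
        _ ≤ _ := by
            apply Finset.sum_le_sum
            intro j _
            rw [← Fintype.card_subtype, ← Nat.card_eq_fintype_card]
            exact card_good2 _ _ (s.orderEmbOfFin rfl).injective j.injective
    · intro j _ j' _ hjj
      show Disjoint _ _
      rw [Finset.disjoint_left]
      intro A hA hA'
      simp only [mem_filter, mem_univ, true_and] at hA hA'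
      apply hjj
      have := hA.unique hA'
      exact DFunLike.coe_injective this
  refine le_trans (le_of_eq ?_) (Finset.sum_le_sum (fun s _ => h1 s))
  have := Finset.sum_powerset_apply_card (x := (univ : Finset (Fin n)))
    (fun r => n.descFactorial r * (2^r - r)^(2 * (n - r)))
  rw [Finset.powerset_univ] at this
  rw [this]
  simp only [Finset.card_univ, Fintype.card_fin, smul_eq_mul]
  apply Finset.sum_congr rfl
  intro r _
  rw [Nat.descFactorial_eq_factorial_mul_choose]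
  ring

def sub {N : ℕ} (a b : Fin N → Bool) : Prop := ∀ x, a x = true → b x = true

instance {N : ℕ} (a b : Fin N → Bool) : Decidable (sub a b) := by unfold sub; infer_instance

/-- pair weight -/
def w {N : ℕ} (a b : Fin N → Bool) : ℕ := 1 + (if sub a b then 1 else 0) + (if sub b a then 1 else 0)

theorem w_symm {N : ℕ} (a b : Fin N → Bool) : w a b = w b a := by
  unfold w; ring

theorem w_pos {N : ℕ} (a b : Fin N → Bool) : 0 < w a b := by
  unfold w; omega

theorem card_pair (A B : Prop) [Decidable A] [Decidable B] :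
    Fintype.card {t : Bool × Bool // (¬ (t.1 = true ∧ t.2 = true)) ∧ (t.1 = true → A) ∧ (t.2 = true → B)} =
      1 + (if A then 1 else 0) + (if B then 1 else 0) := by
  by_cases hA : A <;> by_cases hB : B <;> simp only [hA, hB] <;> rfl

theorem W_le_Z (r N : ℕ) : W r N ≤ ∑ s : Fin r → Fin N → Bool,
    ∏ p : {p : Fin r × Fin r // p.1 < p.2}, w (s p.1.1) (s p.1.2) := by
  classical
  have h1 : ∑ s : Fin r → Fin N → Bool,
    ∏ p : {p : Fin r × Fin r // p.1 < p.2}, w (s p.1.1) (s p.1.2) =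
      Nat.card (Σ s : Fin r → Fin N → Bool, ∀ p : {p : Fin r × Fin r // p.1 < p.2},
        {t : Bool × Bool // (¬ (t.1 = true ∧ t.2 = true)) ∧ (t.1 = true → sub (s p.1.1) (s p.1.2)) ∧
          (t.2 = true → sub (s p.1.2) (s p.1.1))}) := by
    rw [Nat.card_eq_fintype_card, Fintype.card_sigma]
    apply Finset.sum_congr rfl
    intro s _
    rw [Fintype.card_pi]
    apply Finset.prod_congr rfl
    intro p _
    rw [card_pair]
    rfl
  rw [h1]
  unfold W
  apply Nat.card_le_card_of_injective (fun x : S (Fin r) (Fin N) =>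
    (⟨x.1.2, fun p => ⟨(x.1.1 p.1.1 p.1.2, x.1.1 p.1.2 p.1.1), by
      obtain ⟨x, hx1, hx2, hx3, hx4⟩ := x
      obtain ⟨⟨a, b⟩, hab⟩ := p
      refine ⟨?_, fun h => hx4 _ _ h, fun h => hx4 _ _ h⟩
      rintro ⟨h1, h2⟩
      have := hx2 _ _ h1 h2
      simp only at this hab
      exact absurd this (ne_of_lt hab)⟩⟩ : Σ s : Fin r → Fin N → Bool, ∀ p : {p : Fin r × Fin r // p.1 < p.2},
        {t : Bool × Bool // (¬ (t.1 = true ∧ t.2 = true)) ∧ (t.1 = true → sub (s p.1.1) (s p.1.2)) ∧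
          (t.2 = true → sub (s p.1.2) (s p.1.1))}))
  rintro ⟨⟨P, s⟩, hx1, hx2, hx3, hx4⟩ ⟨⟨P', s'⟩, hy1, hy2, hy3, hy4⟩ h
  simp only [Sigma.mk.injEq] at h
  obtain ⟨rfl, h⟩ := h
  rw [heq_eq_eq] at h
  apply Subtype.ext
  simp only [Prod.mk.injEq, and_true]
  ext x y
  rcases lt_trichotomy x y with h' | h' | h'
  · have := congrArg (fun t => t.1.1) (congrFun h ⟨(x, y), h'⟩)
    simp only at this
    rw [this]
  · subst h'
    have a1 := hx1 x
    have a2 := hy1 x
    simp only at a1 a2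
    rw [a1, a2]
  · have := congrArg (fun t => t.1.2) (congrFun h ⟨(y, x), h'⟩)
    simp only at this
    rw [this]

/-- swap trick: sums over bijections depend only on distinctness -/
theorem sum_equiv_const {β γ : Type} [Fintype β] [Fintype γ] [DecidableEq β] [DecidableEq γ]
    (g : γ → γ → ℝ) (p q p' q' : β) (h : p ≠ q) (h' : p' ≠ q') :
    ∑ σ : β ≃ γ, g (σ p) (σ q) = ∑ σ : β ≃ γ, g (σ p') (σ q') := by
  obtain ⟨τ, h1, h2⟩ : ∃ τ : Equiv.Perm β, τ p' = p ∧ τ q' = q := by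
    let τ1 := Equiv.swap p' p
    let q1 := τ1 q'
    have hq1 : q1 ≠ p := by
      intro hh
      have : τ1 q' = τ1 p' := by
        show q1 = _
        rw [hh]; simp [τ1]
      exact h' (τ1.injective this).symm
    refine ⟨(Equiv.swap q1 q) * τ1, ?_, ?_⟩
    · rw [Equiv.Perm.mul_apply]
      have : τ1 p' = p := by simp [τ1]
      rw [this, Equiv.swap_apply_of_ne_of_ne hq1.symm h]
    · rw [Equiv.Perm.mul_apply]
      show (Equiv.swap q1 q) q1 = q
      simp
  symm
  apply Fintype.sum_equiv (Equiv.equivCongr τ (Equiv.refl γ))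
  intro σ
  simp only [Equiv.equivCongr_apply_apply, Equiv.refl_apply]
  congr 1
  · congr 1; rw [← h1]; simp
  · congr 1; rw [← h2]; simp

theorem sum_offdiag {β γ : Type} [Fintype β] [Fintype γ] [DecidableEq β] [DecidableEq γ]
    (g : γ → γ → ℝ) (p q : β) (h : p ≠ q) :
    ((Fintype.card β : ℝ) * ((Fintype.card β : ℝ) - 1)) * ∑ σ : β ≃ γ, g (σ p) (σ q) =
      (Fintype.card (β ≃ γ) : ℝ) * ∑ x ∈ (univ : Finset (γ × γ)).filter (fun x => x.1 ≠ x.2), g x.1 x.2 := by
  have h1 : ∑ x ∈ (univ : Finset (β × β)).filter (fun x => x.1 ≠ x.2), ∑ σ : β ≃ γ, g (σ x.1) (σ x.2) =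
      ∑ σ : β ≃ γ, ∑ x ∈ (univ : Finset (γ × γ)).filter (fun x => x.1 ≠ x.2), g x.1 x.2 := by
    rw [Finset.sum_comm]
    apply Finset.sum_congr rfl
    intro σ _
    apply Finset.sum_equiv (Equiv.prodCongr σ σ)
    · intro x
      simp
    · intro x _
      simp
  rw [Finset.sum_const, Finset.card_univ, nsmul_eq_mul] at h1
  rw [← h1]
  have h2 : ∀ x ∈ (univ : Finset (β × β)).filter (fun x => x.1 ≠ x.2),
      ∑ σ : β ≃ γ, g (σ x.1) (σ x.2) = ∑ σ : β ≃ γ, g (σ p) (σ q) := by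
    intro x hx
    have hx : x.1 ≠ x.2 := by simpa using hx
    exact sum_equiv_const g x.1 x.2 p q hx h
  rw [Finset.sum_congr rfl h2]
  rw [Finset.sum_const, nsmul_eq_mul]
  congr 1
  have : (univ : Finset (β × β)).filter (fun x => x.1 ≠ x.2) = (univ : Finset β).offDiag := by
    ext x; simp
  rw [this, Finset.offDiag_card, Finset.card_univ]
  rw [Nat.cast_sub (by nlinarith [Fintype.card_pos_iff.2 ⟨p⟩])]
  push_cast
  ring

/-- 4-point weight with exponent -/
def G4 (κ : ℕ) {N : ℕ} (u : Fin 4 → Fin N → Bool) : ℕ :=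
  ∏ p : {p : Fin 4 × Fin 4 // p.1 < p.2}, w (u p.1.1) (u p.1.2) ^ κ

theorem sum_pairs {m : ℕ} (g : Fin m → Fin m → ℝ) (hg : ∀ x y, g x y = g y x) :
    ∑ x ∈ (univ : Finset (Fin m × Fin m)).filter (fun x => x.1 ≠ x.2), g x.1 x.2 =
      2 * ∑ p : {p : Fin m × Fin m // p.1 < p.2}, g p.1.1 p.1.2 := by
  have h1 : ∑ p : {p : Fin m × Fin m // p.1 < p.2}, g p.1.1 p.1.2 =
      ∑ x ∈ (univ : Finset (Fin m × Fin m)).filter (fun x => x.1 < x.2), g x.1 x.2 := by
    symm
    exact Finset.sum_subtype (f := fun x : Fin m × Fin m => g x.1 x.2) _ (by simp)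
  have h2 : ∑ x ∈ (univ : Finset (Fin m × Fin m)).filter (fun x => x.2 < x.1), g x.1 x.2 =
      ∑ x ∈ (univ : Finset (Fin m × Fin m)).filter (fun x => x.1 < x.2), g x.1 x.2 := by
    apply Finset.sum_equiv (Equiv.prodComm _ _)
    · intro x; simp
    · intro x _; simp [hg x.1 x.2]
  rw [h1]
  rw [two_mul]
  nth_rw 2 [← h2]
  rw [← Finset.sum_union]
  · apply Finset.sum_congr _ (fun _ _ => rfl)
    ext x
    simp only [mem_filter, mem_univ, true_and, mem_union]
    exact lt_or_lt_iff_ne.symm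
  · rw [Finset.disjoint_left]
    intro x hx hx'
    simp only [mem_filter, mem_univ, true_and] at hx hx'
    exact absurd hx (lt_asymm hx')

theorem amgm_point (b κ r N : ℕ) (hr : r = 4 * b) (hκ : 3 * κ + 1 = r) (s : Fin r → Fin N → Bool) :
    (Fintype.card (Fin b × Fin 4 ≃ Fin r) : ℝ) *
      ((∏ p : {p : Fin r × Fin r // p.1 < p.2}, w (s p.1.1) (s p.1.2) : ℕ) : ℝ) ≤
    ∑ σ : Fin b × Fin 4 ≃ Fin r, ((∏ k : Fin b, G4 κ (fun i => s (σ (k, i))) : ℕ) : ℝ) := by
  set l : Fin r → Fin r → ℝ := fun x y => Real.log (w (s x) (s y) : ℝ) with hl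
  set Lb : ℝ := ∑ p : {p : Fin r × Fin r // p.1 < p.2}, l p.1.1 p.1.2 with hLb
  set L : (Fin b × Fin 4 ≃ Fin r) → ℝ := fun σ => ∑ k : Fin b, ∑ p : {p : Fin 4 × Fin 4 // p.1 < p.2},
    (κ : ℝ) * l (σ (k, p.1.1)) (σ (k, p.1.2)) with hL
  have hwpos : ∀ x y, (0:ℝ) < (w (s x) (s y) : ℝ) := fun x y => by exact_mod_cast w_pos _ _
  have e1 : ((∏ p : {p : Fin r × Fin r // p.1 < p.2}, w (s p.1.1) (s p.1.2) : ℕ) : ℝ) = Real.exp Lb := by
    rw [hLb, Real.exp_sum, Nat.cast_prod]
    apply Finset.prod_congr rfl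
    intro p _
    rw [hl]
    simp only
    rw [Real.exp_log (hwpos _ _)]
  have e2 : ∀ σ : Fin b × Fin 4 ≃ Fin r, ((∏ k : Fin b, G4 κ (fun i => s (σ (k, i))) : ℕ) : ℝ) = Real.exp (L σ) := by
    intro σ
    rw [hL]
    simp only
    rw [Real.exp_sum, Nat.cast_prod]
    apply Finset.prod_congr rfl
    intro k _
    rw [Real.exp_sum]
    unfold G4
    rw [Nat.cast_prod]
    apply Finset.prod_congr rfl
    intro p _
    rw [Real.exp_nat_mul]
    rw [hl]
    simp only
    rw [Real.exp_log (hwpos _ _)]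
    push_cast
    rfl
  have hb : 0 < b := by omega
  have hκ0 : 0 < κ := by omega
  have hRR : (r : ℝ) * ((r : ℝ) - 1) = 12 * b * κ := by
    have h1 : (r : ℝ) = 4 * b := by rw [hr]; push_cast; ring
    have h2 : (r : ℝ) = 3 * κ + 1 := by rw [← hκ]; push_cast; ring
    have h3 : (r : ℝ) - 1 = 3 * κ := by rw [h2]; ring
    rw [h3, h1]; ring
  have hsum : ∑ σ : Fin b × Fin 4 ≃ Fin r, L σ = (Fintype.card (Fin b × Fin 4 ≃ Fin r) : ℝ) * Lb := by
    have hk : ∀ (k : Fin b) (p : {p : Fin 4 × Fin 4 // p.1 < p.2}),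
        (12 * b * κ : ℝ) * ∑ σ : Fin b × Fin 4 ≃ Fin r, l (σ (k, p.1.1)) (σ (k, p.1.2)) =
        (Fintype.card (Fin b × Fin 4 ≃ Fin r) : ℝ) * (2 * Lb) := by
      intro k p
      have hne : ((k, p.1.1) : Fin b × Fin 4) ≠ (k, p.1.2) := by
        intro h
        have := congrArg Prod.snd h
        exact absurd this (ne_of_lt p.2)
      have := sum_offdiag l (k, p.1.1) (k, p.1.2) hne
      rw [sum_pairs l (fun x y => by rw [hl]; simp only; rw [w_symm])] at this
      rw [← this]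
      have hc : (Fintype.card (Fin b × Fin 4) : ℝ) = r := by
        rw [Fintype.card_prod, Fintype.card_fin, Fintype.card_fin, hr]; push_cast; ring
      rw [hc, hRR]
    have hbk : (12 * b * κ : ℝ) ≠ 0 := by positivity
    apply mul_left_cancel₀ hbk
    rw [hL]
    simp only
    rw [Finset.sum_comm]
    rw [Finset.mul_sum]
    have : ∀ k : Fin b, (12 * b * κ : ℝ) * ∑ σ : Fin b × Fin 4 ≃ Fin r, ∑ p : {p : Fin 4 × Fin 4 // p.1 < p.2},
        (κ : ℝ) * l (σ (k, p.1.1)) (σ (k, p.1.2)) =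
        6 * κ * ((Fintype.card (Fin b × Fin 4 ≃ Fin r) : ℝ) * (2 * Lb)) := by
      intro k
      rw [Finset.sum_comm, Finset.mul_sum]
      have : ∀ p : {p : Fin 4 × Fin 4 // p.1 < p.2}, (12 * b * κ : ℝ) * ∑ σ : Fin b × Fin 4 ≃ Fin r,
        (κ : ℝ) * l (σ (k, p.1.1)) (σ (k, p.1.2)) = κ * ((Fintype.card (Fin b × Fin 4 ≃ Fin r) : ℝ) * (2 * Lb)) := by
        intro p
        rw [← Finset.mul_sum, ← hk k p]
        ring
      rw [Finset.sum_congr rfl (fun p _ => this p)]
      rw [Finset.sum_const, Finset.card_univ, show Fintype.card {p : Fin 4 × Fin 4 // p.1 < p.2} = 6 from rfl]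
      simp only [nsmul_eq_mul]
      push_cast
      ring
    rw [Finset.sum_congr rfl (fun k _ => this k)]
    rw [Finset.sum_const, Finset.card_univ, Fintype.card_fin, nsmul_eq_mul]
    ring
  rw [e1, Finset.sum_congr rfl (fun σ _ => e2 σ)]
  calc (Fintype.card (Fin b × Fin 4 ≃ Fin r) : ℝ) * Real.exp Lb
      = ∑ σ : Fin b × Fin 4 ≃ Fin r, Real.exp Lb * (L σ - Lb + 1) := by
        rw [← Finset.mul_sum, Finset.sum_add_distrib, Finset.sum_sub_distrib, hsum]
        rw [Finset.sum_const, Finset.sum_const, Finset.card_univ, nsmul_eq_mul, nsmul_eq_mul]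
        ring
    _ ≤ ∑ σ : Fin b × Fin 4 ≃ Fin r, Real.exp (L σ) := by
        apply Finset.sum_le_sum
        intro σ _
        have h1 : Real.exp (L σ) = Real.exp Lb * Real.exp (L σ - Lb) := by
          rw [← Real.exp_add]; congr 1; ring
        rw [h1]
        exact mul_le_mul_of_nonneg_left (Real.add_one_le_exp _) (Real.exp_pos _).le

theorem sum_blocks (b κ r N : ℕ) (σ : Fin b × Fin 4 ≃ Fin r) :
    ∑ s : Fin r → Fin N → Bool, ∏ k : Fin b, G4 κ (fun i => s (σ (k, i))) =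
      (∑ u : Fin 4 → Fin N → Bool, G4 κ u)^b := by
  rw [Fintype.sum_pow]
  apply Fintype.sum_equiv ((Equiv.arrowCongr σ.symm (Equiv.refl (Fin N → Bool))).trans (Equiv.curry _ _ _))
  intro s
  rfl

theorem Z_le (b κ r N : ℕ) (hr : r = 4 * b) (hκ : 3 * κ + 1 = r) :
    ∑ s : Fin r → Fin N → Bool, ∏ p : {p : Fin r × Fin r // p.1 < p.2}, w (s p.1.1) (s p.1.2) ≤
      (∑ u : Fin 4 → Fin N → Bool, G4 κ u)^b := by
  have hK : 0 < Fintype.card (Fin b × Fin 4 ≃ Fin r) := by
    apply Fintype.card_pos_iff.2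
    refine ⟨finProdFinEquiv.trans (finCongr ?_)⟩
    rw [hr]; ring
  have hK' : (0:ℝ) < (Fintype.card (Fin b × Fin 4 ≃ Fin r) : ℝ) := by exact_mod_cast hK
  have h1 : (Fintype.card (Fin b × Fin 4 ≃ Fin r) : ℝ) *
      ((∑ s : Fin r → Fin N → Bool, ∏ p : {p : Fin r × Fin r // p.1 < p.2}, w (s p.1.1) (s p.1.2) : ℕ) : ℝ) ≤
      (Fintype.card (Fin b × Fin 4 ≃ Fin r) : ℝ) * (((∑ u : Fin 4 → Fin N → Bool, G4 κ u)^b : ℕ) : ℝ) := by
    rw [Nat.cast_sum, Finset.mul_sum]
    refine (Finset.sum_le_sum (fun s _ => amgm_point b κ r N hr hκ s)).trans ?_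
    rw [Finset.sum_comm]
    have : ∀ σ : Fin b × Fin 4 ≃ Fin r, ∑ s : Fin r → Fin N → Bool,
        ((∏ k : Fin b, G4 κ (fun i => s (σ (k, i))) : ℕ) : ℝ) =
        (((∑ u : Fin 4 → Fin N → Bool, G4 κ u)^b : ℕ) : ℝ) := by
      intro σ
      rw [← sum_blocks b κ r N σ, Nat.cast_sum]
    rw [Finset.sum_congr rfl (fun σ _ => this σ)]
    rw [Finset.sum_const, Finset.card_univ, nsmul_eq_mul]
  have h2 := le_of_mul_le_mul_left h1 hK'
  exact_mod_cast h2

def resp (q01 q02 q03 q10 q12 q13 q20 q21 q23 q30 q31 q32 : Bool) (v : Bool × Bool × Bool × Bool) : Bool :=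
  (!q01 || !v.1 || v.2.1) && (!q02 || !v.1 || v.2.2.1) && (!q03 || !v.1 || v.2.2.2) &&
  (!q10 || !v.2.1 || v.1) && (!q12 || !v.2.1 || v.2.2.1) && (!q13 || !v.2.1 || v.2.2.2) &&
  (!q20 || !v.2.2.1 || v.1) && (!q21 || !v.2.2.1 || v.2.1) && (!q23 || !v.2.2.1 || v.2.2.2) &&
  (!q30 || !v.2.2.2 || v.1) && (!q31 || !v.2.2.2 || v.2.1) && (!q32 || !v.2.2.2 || v.2.2.1)

def bn (b : Bool) : ℕ := cond b 1 0

def kk (q01 q02 q03 q10 q12 q13 q20 q21 q23 q30 q31 q32 : Bool) : ℕ :=
  (1 + bn q01 + bn q10) * (1 + bn q02 + bn q20) * (1 + bn q03 + bn q30) *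
  (1 + bn q12 + bn q21) * (1 + bn q13 + bn q31) * (1 + bn q23 + bn q32)

def uu (q01 q02 q03 q10 q12 q13 q20 q21 q23 q30 q31 q32 : Bool) : ℕ :=
  Fintype.card {v : Bool × Bool × Bool × Bool // resp q01 q02 q03 q10 q12 q13 q20 q21 q23 q30 q31 q32 v = true}

theorem chk : ∀ q01 q02 q03 q10 q12 q13 q20 q21 q23 q30 q31 q32 : Bool,
    (q01 || q02 || q03 || q10 || q12 || q13 || q20 || q21 || q23 || q30 || q31 || q32) = true →
    kk q01 q02 q03 q10 q12 q13 q20 q21 q23 q30 q31 q32 ^ 4 * uu q01 q02 q03 q10 q12 q13 q20 q21 q23 q30 q31 q32 ^ 15 * 500^15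
      ≤ (491 * 16)^15 := by
  decide +kernel

/-- off-diagonal relation pattern of a 4-tuple -/
def qof {N : ℕ} (u : Fin 4 → Fin N → Bool) (i j : Fin 4) : Bool := decide (i ≠ j ∧ sub (u i) (u j))

theorem w_bn {N : ℕ} (u : Fin 4 → Fin N → Bool) (i j : Fin 4) (h : i ≠ j) :
    w (u i) (u j) = 1 + bn (qof u i j) + bn (qof u j i) := by
  unfold w qof bn
  by_cases h1 : sub (u i) (u j) <;> by_cases h2 : sub (u j) (u i) <;> simp [h, h.symm, h1, h2]

abbrev kq (q : Fin 4 → Fin 4 → Bool) : ℕ :=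
  kk (q 0 1) (q 0 2) (q 0 3) (q 1 0) (q 1 2) (q 1 3) (q 2 0) (q 2 1) (q 2 3) (q 3 0) (q 3 1) (q 3 2)

abbrev uq (q : Fin 4 → Fin 4 → Bool) : ℕ :=
  uu (q 0 1) (q 0 2) (q 0 3) (q 1 0) (q 1 2) (q 1 3) (q 2 0) (q 2 1) (q 2 3) (q 3 0) (q 3 1) (q 3 2)

theorem prod_pairs4 (g : Fin 4 → Fin 4 → ℕ) :
    ∏ p : {p : Fin 4 × Fin 4 // p.1 < p.2}, g p.1.1 p.1.2 =
      g 0 1 * g 0 2 * g 0 3 * g 1 2 * g 1 3 * g 2 3 := by
  have h1 : ∏ p : {p : Fin 4 × Fin 4 // p.1 < p.2}, g p.1.1 p.1.2 =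
      ∏ x ∈ (univ : Finset (Fin 4 × Fin 4)).filter (fun x => x.1 < x.2), g x.1 x.2 := by
    symm
    exact Finset.prod_subtype (f := fun x : Fin 4 × Fin 4 => g x.1 x.2) _ (by simp)
  rw [h1]
  have h2 : (univ : Finset (Fin 4 × Fin 4)).filter (fun x => x.1 < x.2) =
      {(0,1), (0,2), (0,3), (1,2), (1,3), (2,3)} := by decide
  rw [h2]
  rw [Finset.prod_insert (by decide), Finset.prod_insert (by decide), Finset.prod_insert (by decide),
    Finset.prod_insert (by decide), Finset.prod_insert (by decide), Finset.prod_singleton]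
  ring

theorem G4_eq (κ : ℕ) {N : ℕ} (u : Fin 4 → Fin N → Bool) : G4 κ u = kq (qof u) ^ κ := by
  unfold G4
  rw [Finset.prod_pow, prod_pairs4 (fun i j => w (u i) (u j))]
  rw [w_bn u 0 1 (by decide), w_bn u 0 2 (by decide), w_bn u 0 3 (by decide), w_bn u 1 2 (by decide),
    w_bn u 1 3 (by decide), w_bn u 2 3 (by decide)]
  rfl

theorem qof_use {N : ℕ} (u : Fin 4 → Fin N → Bool) (i j : Fin 4) (x : Fin N) :
    (!(qof u i j) || !(u i x) || u j x) = true := by
  by_cases h : qof u i j = true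
  · have h1 : sub (u i) (u j) := by
      unfold qof at h
      exact (of_decide_eq_true h).2
    have h2 := h1 x
    by_cases h3 : u i x = true
    · simp [h2 h3]
    · simp [h3]
  · simp [h]

theorem card_fiber {N : ℕ} (q : Fin 4 → Fin 4 → Bool) :
    ((univ : Finset (Fin 4 → Fin N → Bool)).filter (fun u => qof u = q)).card ≤ uq q ^ N := by
  classical
  rw [← Fintype.card_subtype]
  have : uq q ^ N = Fintype.card (Fin N → {v : Bool × Bool × Bool × Bool // resp (q 0 1) (q 0 2) (q 0 3) (q 1 0)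
      (q 1 2) (q 1 3) (q 2 0) (q 2 1) (q 2 3) (q 3 0) (q 3 1) (q 3 2) v = true}) := by
    rw [Fintype.card_fun, Fintype.card_fin]
    rfl
  rw [this]
  apply Fintype.card_le_of_injective (fun u : {u : Fin 4 → Fin N → Bool // qof u = q} => fun x =>
    (⟨(u.1 0 x, u.1 1 x, u.1 2 x, u.1 3 x), by
      obtain ⟨u, rfl⟩ := u
      simp only [resp, Bool.and_eq_true, qof_use, and_self]⟩ :
      {v : Bool × Bool × Bool × Bool // resp (q 0 1) (q 0 2) (q 0 3) (q 1 0)
      (q 1 2) (q 1 3) (q 2 0) (q 2 1) (q 2 3) (q 3 0) (q 3 1) (q 3 2) v = true}))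
  intro u u' h
  apply Subtype.ext
  funext i x
  have h1 := congrFun h x
  simp only [Subtype.mk.injEq, Prod.mk.injEq] at h1
  obtain ⟨a, b, c, d⟩ := h1
  fin_cases i
  · exact a
  · exact b
  · exact c
  · exact d

theorem pow_bound (κ N k U : ℕ) (hκ : 15 * κ ≤ 4 * N) (hk : 1 ≤ k) (h : k ^ 4 * U ^ 15 * 500 ^ 15 ≤ (491 * 16) ^ 15) :
    (U : ℝ) ^ N * (k : ℝ) ^ κ ≤ (16 * (491 / 500)) ^ N := by
  have h1 : ((k : ℝ)^4 * (U:ℝ)^15) ≤ (16 * (491/500))^15 := by
    have h' : (k : ℝ)^4 * (U : ℝ)^15 * 500^15 ≤ (491 * 16)^15 := by exact_mod_cast h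
    have : ((16:ℝ) * (491/500))^15 * 500^15 = (491 * 16)^15 := by norm_num
    rw [← this] at h'
    exact le_of_mul_le_mul_right h' (by positivity)
  have h2 : ((U : ℝ) ^ N * (k : ℝ) ^ κ)^15 ≤ ((16 * (491 / 500)) ^ N)^15 := by
    have hk' : (1:ℝ) ≤ k := by exact_mod_cast hk
    calc ((U : ℝ) ^ N * (k : ℝ) ^ κ)^15 = (U:ℝ)^(15 * N) * (k:ℝ)^(15 * κ) := by
          rw [mul_pow, ← pow_mul, ← pow_mul]; ring_nf
      _ ≤ (U:ℝ)^(15 * N) * (k:ℝ)^(4 * N) := by
          apply mul_le_mul_of_nonneg_left _ (by positivity)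
          exact pow_le_pow_right₀ hk' hκ
      _ = ((k : ℝ)^4 * (U:ℝ)^15)^N := by
          rw [mul_pow, ← pow_mul, ← pow_mul]; ring
      _ ≤ ((16 * (491/500))^15)^N := pow_le_pow_left₀ (by positivity) h1 _
      _ = _ := by rw [← pow_mul, ← pow_mul]; ring_nf
  exact le_of_pow_le_pow_left₀ (by norm_num) (by positivity) h2

theorem fiber_bound (κ N : ℕ) (hκ : 15 * κ ≤ 4 * N) (q : Fin 4 → Fin 4 → Bool) :
    ∑ u ∈ (univ : Finset (Fin 4 → Fin N → Bool)).filter (fun u => qof u = q), (G4 κ u : ℝ) ≤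
      if q = (fun _ _ => false) then (16:ℝ)^N else (16 * (491/500))^N := by
  classical
  have h1 : ∑ u ∈ (univ : Finset (Fin 4 → Fin N → Bool)).filter (fun u => qof u = q), (G4 κ u : ℝ) =
      ((univ : Finset (Fin 4 → Fin N → Bool)).filter (fun u => qof u = q)).card * (kq q : ℝ)^κ := by
    rw [← nsmul_eq_mul, ← Finset.sum_const]
    apply Finset.sum_congr rfl
    intro u hu
    simp only [mem_filter, mem_univ, true_and] at hu
    rw [G4_eq, hu]
    push_cast
    rfl
  rw [h1]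
  split_ifs with hq
  · have hk : kq q = 1 := by rw [hq]; rfl
    rw [hk]
    simp only [Nat.cast_one, one_pow, mul_one]
    have h2 := card_fiber (N := N) q
    have hu : uq q = 16 := by rw [hq]; decide +kernel
    rw [hu] at h2
    exact_mod_cast h2
  · rcases Finset.eq_empty_or_nonempty ((univ : Finset (Fin 4 → Fin N → Bool)).filter (fun u => qof u = q)) with he | ⟨u, hu⟩
    · rw [he]
      simp only [Finset.card_empty, Nat.cast_zero, zero_mul]
      positivity
    · simp only [mem_filter, mem_univ, true_and] at hu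
      have hdiag : ∀ i, q i i = false := by
        intro i; rw [← hu]; simp [qof]
      have hor : (q 0 1 || q 0 2 || q 0 3 || q 1 0 || q 1 2 || q 1 3 || q 2 0 || q 2 1 || q 2 3 || q 3 0 || q 3 1 || q 3 2) = true := by
        by_contra hno
        apply hq
        simp only [Bool.or_eq_true, not_or, Bool.not_eq_true] at hno
        funext i j
        fin_cases i <;> fin_cases j <;> simp [hdiag, hno]
      have hc := chk _ _ _ _ _ _ _ _ _ _ _ _ hor
      have hk : 1 ≤ kq q := by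
        unfold kq kk
        have : ∀ a b : ℕ, 1 ≤ 1 + a + b := fun a b => by omega
        have h3 : ∀ x y : ℕ, 1 ≤ x → 1 ≤ y → 1 ≤ x * y := fun x y h1 h2 => Nat.mul_pos h1 h2
        exact h3 _ _ (h3 _ _ (h3 _ _ (h3 _ _ (h3 _ _ (this _ _) (this _ _)) (this _ _)) (this _ _)) (this _ _)) (this _ _)
      refine le_trans ?_ (pow_bound κ N (kq q) (uq q) hκ hk hc)
      apply mul_le_mul_of_nonneg_right _ (by positivity)
      exact_mod_cast card_fiber (N := N) q

theorem sum_G4 (κ N : ℕ) (hκ : 15 * κ ≤ 4 * N) :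
    ((∑ u : Fin 4 → Fin N → Bool, G4 κ u : ℕ) : ℝ) ≤ 16^N * (1 + 65536 * (491/500)^N) := by
  classical
  rw [Nat.cast_sum, ← Finset.sum_fiberwise (univ : Finset (Fin 4 → Fin N → Bool)) (fun u => qof u)]
  refine (Finset.sum_le_sum (fun q _ => fiber_bound κ N hκ q)).trans ?_
  rw [Finset.sum_ite]
  rw [Finset.sum_const, Finset.sum_const, nsmul_eq_mul, nsmul_eq_mul]
  have h1 : ((univ : Finset (Fin 4 → Fin 4 → Bool)).filter (fun q => q = fun _ _ => false)).card = 1 := by
    rw [Finset.card_eq_one]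
    exact ⟨fun _ _ => false, by ext q; simp⟩
  rw [h1]
  have h2 : (((univ : Finset (Fin 4 → Fin 4 → Bool)).filter (fun q => ¬ (q = fun _ _ => false))).card : ℝ) ≤ 65536 := by
    have : ((univ : Finset (Fin 4 → Fin 4 → Bool)).filter (fun q => ¬ (q = fun _ _ => false))).card ≤ 65536 := by
      refine (Finset.card_le_univ _).trans ?_
      rw [Fintype.card_fun, Fintype.card_fun, Fintype.card_bool, Fintype.card_fin]
      norm_num
    exact_mod_cast this
  rw [mul_pow]
  have h3 : (0:ℝ) ≤ 16^N * (491/500)^N := by positivity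
  generalize (((univ : Finset (Fin 4 → Fin 4 → Bool)).filter (fun q => ¬ (q = fun _ _ => false))).card : ℝ) = X at h2 ⊢
  have h4 := mul_le_mul_of_nonneg_right h2 h3
  have h5 : (16:ℝ)^N * (1 + 65536 * (491/500)^N) = 16^N + 65536 * (16^N * (491/500)^N) := by ring
  rw [h5]
  simp only [Nat.cast_one, one_mul]
  exact add_le_add (le_refl _) h4

theorem W_pad (r N : ℕ) : W r N * 2^N ≤ W (r+1) N := by
  classical
  have h1 : W r N * 2^N = Nat.card (S (Fin r) (Fin N) × (Fin N → Bool)) := by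
    rw [Nat.card_prod, Nat.card_eq_fintype_card (α := Fin N → Bool), Fintype.card_fun, Fintype.card_bool,
      Fintype.card_fin]
    rfl
  have h2 := card_S (Option (Fin r)) (Fin N)
  rw [Fintype.card_option, Fintype.card_fin, Fintype.card_fin] at h2
  rw [h1, ← h2]
  apply Nat.card_le_card_of_injective (fun x : S (Fin r) (Fin N) × (Fin N → Bool) =>
    (⟨(fun a b => a.elim (b.elim true (fun _ => false)) (fun a => b.elim false (fun b => x.1.1.1 a b)),
      fun a c => a.elim (x.2 c) (fun a => x.1.1.2 a c)), by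
      obtain ⟨⟨⟨P, s⟩, p1, p2, p3, p4⟩, t⟩ := x
      refine ⟨?_, ?_, ?_, ?_⟩
      · rintro (_ | a)
        · rfl
        · exact p1 a
      · rintro (_ | a) (_ | b) ha hb
        · rfl
        · simp at ha
        · simp at ha
        · simp only [Option.elim_some] at ha hb
          rw [p2 a b ha hb]
      · rintro (_ | a) (_ | b) (_ | c) ha hb
        · rfl
        · simp at hb
        · simp at ha
        · simp at ha
        · simp at ha
        · simp at ha
        · simp at hb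
        · simp only [Option.elim_some] at ha hb ⊢
          exact p3 a b c ha hb
      · rintro (_ | a) (_ | b) ha c
        · exact id
        · simp at ha
        · simp at ha
        · simp only [Option.elim_some] at ha ⊢
          exact p4 a b ha c⟩ : S (Option (Fin r)) (Fin N)))
  rintro ⟨⟨⟨P, s⟩, p1, p2, p3, p4⟩, t⟩ ⟨⟨⟨P', s'⟩, p1', p2', p3', p4'⟩, t'⟩ h
  have h := congrArg Subtype.val h
  simp only [Prod.mk.injEq] at h
  obtain ⟨ha, hb⟩ := h
  have e1 : P = P' := by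
    funext a b
    have := congrFun (congrFun ha (some a)) (some b)
    simpa using this
  have e2 : s = s' := by
    funext a c
    have := congrFun (congrFun hb (some a)) c
    simpa using this
  have e3 : t = t' := by
    funext c
    have := congrFun (congrFun hb none) c
    simpa using this
  subst e1 e2 e3
  rfl

theorem W_pad' (r N a : ℕ) : W r N * 2^(N * a) ≤ W (r+a) N := by
  induction a with
  | zero => simp
  | succ a ih =>
    calc W r N * 2^(N * (a+1)) = (W r N * 2^(N * a)) * 2^N := by ring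
      _ ≤ W (r+a) N * 2^N := Nat.mul_le_mul_right _ ih
      _ ≤ W (r+(a+1)) N := W_pad (r+a) N

theorem W_base0 (m N : ℕ) (h : 15 * (4 * m + 1) ≤ 4 * N) :
    (W (12 * m + 4) N : ℝ) ≤ (16^N * (1 + 65536 * (491/500)^N))^(3*m+1) := by
  have h1 := (W_le_Z (12 * m + 4) N).trans (Z_le (3*m+1) (4*m+1) (12*m+4) N (by ring) (by ring))
  have h2 : (W (12 * m + 4) N : ℝ) ≤ (((∑ u : Fin 4 → Fin N → Bool, G4 (4*m+1) u)^(3*m+1) : ℕ) : ℝ) := by
    exact_mod_cast h1
  refine h2.trans ?_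
  rw [Nat.cast_pow]
  exact pow_le_pow_left₀ (by positivity) (sum_G4 (4*m+1) N h) _

theorem W_base (r N : ℕ) (h : 5 * (r + 12) ≤ 4 * N) :
    (W r N : ℝ) ≤ 2^(r * N) * (1 + 65536 * (491/500)^N)^(r+12) := by
  obtain ⟨m, a, ha, hm⟩ : ∃ m a, r + a = 12 * m + 4 ∧ 12 * m + 4 ≤ r + 11 := by
    rcases Nat.lt_or_ge r 5 with h5 | h5
    · exact ⟨0, 4 - r, by omega, by omega⟩
    · refine ⟨(r + 7) / 12, 12 * ((r+7)/12) + 4 - r, ?_, ?_⟩ <;> omega
  have h1 := W_pad' r N a
  rw [ha] at h1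
  have h2 := W_base0 m N (by omega)
  have h3 : (W r N : ℝ) * 2^(N * a) ≤ (W (12*m+4) N : ℝ) := by exact_mod_cast h1
  have h4 := h3.trans h2
  have h5 : ((16:ℝ)^N * (1 + 65536 * (491/500)^N))^(3*m+1) =
      (2^(r * N) * (1 + 65536 * (491/500)^N)^(3*m+1)) * 2^(N * a) := by
    rw [mul_pow]
    have : ((16:ℝ)^N)^(3*m+1) = 2^(r*N) * 2^(N*a) := by
      rw [show (16:ℝ) = 2^4 by norm_num, ← pow_mul, ← pow_mul, ← pow_add]
      congr 1
      have : r * N + N * a = (r + a) * N := by ring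
      rw [this, ha]; ring
    rw [this]; ring
  rw [h5] at h4
  have h6 := le_of_mul_le_mul_right h4 (by positivity)
  refine h6.trans ?_
  apply mul_le_mul_of_nonneg_left _ (by positivity)
  apply pow_le_pow_right₀
  · have : (0:ℝ) ≤ 65536 * (491/500)^N := by positivity
    linarith
  · omega

theorem exists_down {α : Type} [Fintype α] (P : α → α → Bool) (h1 : ∀ x, P x x = true)
    (h2 : ∀ x y, P x y = true → P y x = true → x = y)
    (h3 : ∀ x y z, P x y = true → P y z = true → P x z = true) (h : ℕ) (hh : h ≤ Fintype.card α) :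
    ∃ L : Finset α, L.card = h ∧ ∀ x y, y ∈ L → P x y = true → x ∈ L := by
  classical
  induction h with
  | zero => exact ⟨∅, by simp, by simp⟩
  | succ h ih =>
    obtain ⟨L, hL, hd⟩ := ih (by omega)
    have hne : (Lᶜ).Nonempty := by
      rw [← Finset.card_pos, Finset.card_compl]
      omega
    obtain ⟨y, hy, hmin⟩ := Finset.exists_min_image Lᶜ (fun y => (univ.filter (fun x => P x y = true)).card) hne
    refine ⟨insert y L, ?_, ?_⟩
    · rw [Finset.card_insert_of_notMem (by simpa using hy), hL]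
    · intro x z hz hxz
      rw [Finset.mem_insert] at hz ⊢
      rcases hz with rfl | hz
      · by_contra hno
        push Not at hno
        have hx : x ∈ Lᶜ := by simpa using hno.2
        have := hmin x hx
        have hlt : (univ.filter (fun t => P t x = true)).card < (univ.filter (fun t => P t z = true)).card := by
          apply Finset.card_lt_card
          rw [Finset.ssubset_iff_of_subset]
          · refine ⟨z, by simp [h1], ?_⟩
            simp only [mem_filter, mem_univ, true_and]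
            intro hzx
            exact hno.1 (h2 _ _ hxz hzx)
          · intro t ht
            simp only [mem_filter, mem_univ, true_and] at ht ⊢
            exact h3 _ _ _ ht hxz
        omega
      · right
        exact hd _ _ hz hxz

theorem W_rec (r N h : ℕ) (hh : h ≤ r) : W r N ≤ r.choose h * (W h (N + (r - h)) * W (r - h) N) := by
  classical
  have key : ∀ L : Finset (Fin r), L.card = h →
      Nat.card {x : S (Fin r) (Fin N) // ∀ a b, b ∈ L → x.1.1 a b = true → a ∈ L} ≤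
        W h (N + (r - h)) * W (r - h) N := by
    intro L hL
    have hc : Fintype.card {a // a ∈ L} = h := by rw [Fintype.card_coe, hL]
    have hc' : Fintype.card {a // a ∉ L} = r - h := by
      rw [Fintype.card_subtype_compl, Fintype.card_fin, hc]
    have e1 := card_S {a // a ∈ L} (Fin N ⊕ {a // a ∉ L})
    rw [hc, Fintype.card_sum, Fintype.card_fin, hc'] at e1
    have e2 := card_S {a // a ∉ L} (Fin N)
    rw [hc', Fintype.card_fin] at e2
    rw [← e1, ← e2, ← Nat.card_prod]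
    apply Nat.card_le_card_of_injective (fun x : {x : S (Fin r) (Fin N) // ∀ a b, b ∈ L → x.1.1 a b = true → a ∈ L} =>
      ((⟨(fun a b => x.1.1.1 a.1 b.1, fun a c => Sum.elim (fun c => x.1.1.2 a.1 c) (fun c => ! (x.1.1.1 a.1 c.1)) c), by
        obtain ⟨⟨⟨P, s⟩, p1, p2, p3, p4⟩, hx⟩ := x
        refine ⟨fun a => p1 a.1, fun a b h1 h2 => Subtype.ext (p2 _ _ h1 h2), fun a b c h1 h2 => p3 _ _ _ h1 h2, ?_⟩
        rintro a b h1 (c | c) h2
        · exact p4 _ _ h1 _ h2
        · simp only [Sum.elim_inr, Bool.not_eq_eq_eq_not, Bool.not_true] at h2 ⊢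
          by_contra h5
          rw [Bool.not_eq_false] at h5
          have := p3 _ _ _ h1 h5
          simp only at this
          rw [this] at h2
          exact absurd h2 (by simp)⟩ : S {a // a ∈ L} (Fin N ⊕ {a // a ∉ L})),
       (⟨(fun a b => x.1.1.1 a.1 b.1, fun a c => x.1.1.2 a.1 c), by
        obtain ⟨⟨⟨P, s⟩, p1, p2, p3, p4⟩, hx⟩ := x
        exact ⟨fun a => p1 a.1, fun a b h1 h2 => Subtype.ext (p2 _ _ h1 h2), fun a b c h1 h2 => p3 _ _ _ h1 h2,
          fun a b h1 c h2 => p4 _ _ h1 _ h2⟩⟩ : S {a // a ∉ L} (Fin N))))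
    rintro ⟨⟨⟨P, s⟩, p1, p2, p3, p4⟩, hx⟩ ⟨⟨⟨P', s'⟩, p1', p2', p3', p4'⟩, hx'⟩ heq
    simp only [Prod.mk.injEq] at heq
    obtain ⟨ha, hb⟩ := heq
    have ha := congrArg Subtype.val ha
    have hb := congrArg Subtype.val hb
    simp only [Prod.mk.injEq] at ha hb
    obtain ⟨ha1, ha2⟩ := ha
    obtain ⟨hb1, hb2⟩ := hb
    simp only at hx hx'
    have es : s = s' := by
      funext a c
      by_cases haL : a ∈ L
      · exact congrFun (congrFun ha2 ⟨a, haL⟩) (Sum.inl c)
      · exact congrFun (congrFun hb2 ⟨a, haL⟩) c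
    have eP : P = P' := by
      funext a b
      by_cases haL : a ∈ L <;> by_cases hbL : b ∈ L
      · exact congrFun (congrFun ha1 ⟨a, haL⟩) ⟨b, hbL⟩
      · have := congrFun (congrFun ha2 ⟨a, haL⟩) (Sum.inr ⟨b, hbL⟩)
        simpa using this
      · have h1 : P a b = false := by
          by_contra h5
          rw [Bool.not_eq_false] at h5
          exact haL (hx a b hbL h5)
        have h2 : P' a b = false := by
          by_contra h5
          rw [Bool.not_eq_false] at h5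
          exact haL (hx' a b hbL h5)
        rw [h1, h2]
      · exact congrFun (congrFun hb1 ⟨a, haL⟩) ⟨b, hbL⟩
    subst es eP
    rfl
  have h1 : W r N ≤ Nat.card (Σ L : {L : Finset (Fin r) // L.card = h},
      {x : S (Fin r) (Fin N) // ∀ a b, b ∈ L.1 → x.1.1 a b = true → a ∈ L.1}) := by
    unfold W
    have hex : ∀ x : S (Fin r) (Fin N), ∃ L : {L : Finset (Fin r) // L.card = h}, ∀ a b, b ∈ L.1 → x.1.1 a b = true → a ∈ L.1 := by
      intro x
      obtain ⟨L, hL, hd⟩ := exists_down x.1.1 x.2.1 x.2.2.1 x.2.2.2.1 h (by simpa using hh)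
      exact ⟨⟨L, hL⟩, hd⟩
    choose f hf using hex
    apply Nat.card_le_card_of_injective (fun x => (⟨f x, ⟨x, hf x⟩⟩ : Σ L : {L : Finset (Fin r) // L.card = h},
      {x : S (Fin r) (Fin N) // ∀ a b, b ∈ L.1 → x.1.1 a b = true → a ∈ L.1}))
    intro x y hxy
    have := congrArg (fun z : (Σ L : {L : Finset (Fin r) // L.card = h},
      {x : S (Fin r) (Fin N) // ∀ a b, b ∈ L.1 → x.1.1 a b = true → a ∈ L.1}) => z.2.1) hxy
    exact this
  refine h1.trans ?_
  rw [Nat.card_sigma]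
  refine (Finset.sum_le_sum (fun L _ => key L.1 L.2)).trans ?_
  rw [Finset.sum_const, Finset.card_univ, Fintype.card_finset_len, Fintype.card_fin, smul_eq_mul]

theorem W_pos (r N : ℕ) : 0 < W r N := by
  unfold W
  have : Nonempty (S (Fin r) (Fin N)) :=
    ⟨⟨(fun a b => decide (a = b), fun _ _ => false), by simp, by simp, by
      intro x y z h1 h2
      simp only [decide_eq_true_eq] at *
      exact h1.trans h2, by simp⟩⟩
  exact Nat.card_pos

theorem W_triv (r N : ℕ) : W r N ≤ 2^(r * r + r * N) := by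
  unfold W
  have : 2^(r * r + r * N) = Nat.card ((Fin r → Fin r → Bool) × (Fin r → Fin N → Bool)) := by
    rw [Nat.card_eq_fintype_card, Fintype.card_prod, Fintype.card_fun, Fintype.card_fun, Fintype.card_fun,
      Fintype.card_fun, Fintype.card_bool, Fintype.card_fin, Fintype.card_fin, ← pow_mul, ← pow_mul, ← pow_add]
    congr 1; ring
  rw [this]
  exact Nat.card_le_card_of_injective _ Subtype.val_injective

noncomputable def LW (r N : ℕ) : ℝ := Real.logb 2 (W r N : ℝ)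

theorem LW_spec (r N : ℕ) : (W r N : ℝ) = (2:ℝ)^(LW r N) := by
  unfold LW
  rw [Real.rpow_logb (by norm_num) (by norm_num)]
  exact_mod_cast W_pos r N

theorem LW_le_of {r N : ℕ} {x : ℝ} (h : (W r N : ℝ) ≤ (2:ℝ)^x) : LW r N ≤ x := by
  rw [LW_spec] at h
  exact (Real.rpow_le_rpow_left_iff (by norm_num)).1 h

theorem LW_triv (r N : ℕ) : LW r N ≤ r * r + r * N := by
  apply LW_le_of
  have := W_triv r N
  have h : (W r N : ℝ) ≤ 2^(r * r + r * N) := by exact_mod_cast this
  refine h.trans (le_of_eq ?_)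
  rw [← Real.rpow_natCast]
  push_cast
  rfl

theorem LW_rec (r N h : ℕ) (hh : h ≤ r) : LW r N ≤ r + LW h (N + (r - h)) + LW (r - h) N := by
  apply LW_le_of
  have h1 := W_rec r N h hh
  have h2 : (W r N : ℝ) ≤ (r.choose h : ℝ) * ((W h (N + (r - h)) : ℝ) * (W (r - h) N : ℝ)) := by exact_mod_cast h1
  have h3 : (r.choose h : ℝ) ≤ (2:ℝ)^(r:ℝ) := by
    rw [Real.rpow_natCast]
    exact_mod_cast Nat.choose_le_two_pow r h
  rw [Real.rpow_add (by norm_num), Real.rpow_add (by norm_num), ← LW_spec, ← LW_spec, mul_assoc]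
  exact h2.trans (mul_le_mul_of_nonneg_right h3 (by positivity))

theorem LW_base (r N : ℕ) (h : 5 * (r + 12) ≤ 4 * N) : LW r N ≤ r * N + 17 * (r + 12) := by
  apply LW_le_of
  refine (W_base r N h).trans ?_
  have h1 : (1:ℝ) + 65536 * (491/500)^N ≤ 2^17 := by
    have : ((491:ℝ)/500)^N ≤ 1 := pow_le_one₀ (by norm_num) (by norm_num)
    linarith
  calc (2:ℝ)^(r*N) * (1 + 65536 * (491/500)^N)^(r+12) ≤ (2:ℝ)^(r*N) * (2^17)^(r+12) := by
        apply mul_le_mul_of_nonneg_left _ (by positivity)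
        exact pow_le_pow_left₀ (by positivity) h1 _
    _ = (2:ℝ)^(r * N + 17 * (r+12)) := by rw [← pow_mul, ← pow_add]
    _ = (2:ℝ)^((r:ℝ) * N + 17 * (r+12)) := by
        rw [← Real.rpow_natCast]; push_cast; rfl

theorem LW_G (r N : ℕ) : LW r N ≤ 5/14 * ((r:ℝ) + N)^2 + 100 * ((r:ℝ) + N) := by
  induction r using Nat.strong_induction_on with
  | _ r ih =>
  by_cases hT : r + N ≤ 100
  · refine (LW_triv r N).trans ?_
    have h1 : (r:ℝ) + N ≤ 100 := by exact_mod_cast hT
    have h2 : (0:ℝ) ≤ r := by positivity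
    have h3 : (0:ℝ) ≤ N := by positivity
    nlinarith
  · push Not at hT
    by_cases hr : 9 * r + 60 ≤ 4 * (r + N)
    · refine (LW_base r N (by omega)).trans ?_
      have h1 : (100:ℝ) ≤ (r:ℝ) + N := by exact_mod_cast hT.le
      have h2 : (0:ℝ) ≤ r := by positivity
      have h3 : (0:ℝ) ≤ N := by positivity
      nlinarith [sq_nonneg ((r:ℝ) - N)]
    · obtain ⟨h, hh1, hh2⟩ : ∃ h, 9 * h + 60 ≤ 4 * (r + N) ∧ 4 * (r + N) ≤ 9 * h + 68 :=
        ⟨(4 * (r + N) - 60) / 9, by omega, by omega⟩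
      have hhr : h ≤ r := by omega
      have hrec := LW_rec r N h hhr
      have hb := LW_base h (N + (r - h)) (by omega)
      have hih := ih (r - h) (by omega)
      have c1 : ((r - h : ℕ) : ℝ) = r - h := by rw [Nat.cast_sub hhr]
      push_cast at hb
      rw [c1] at hb hih
      have g1 : (9:ℝ) * h + 60 ≤ 4 * (r + N) := by exact_mod_cast hh1
      have g2 : (4:ℝ) * (r + N) ≤ 9 * h + 68 := by exact_mod_cast hh2
      have g3 : (100:ℝ) ≤ (r:ℝ) + N := by exact_mod_cast hT.le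
      have h2 : (0:ℝ) ≤ r := by positivity
      have h3 : (0:ℝ) ≤ N := by positivity
      have h4 : (0:ℝ) ≤ h := by positivity
      set T : ℝ := (r:ℝ) + N with hTdef
      have e1 : (N:ℝ) + (r - h) = T - h := by rw [hTdef]; ring
      have e2 : (r:ℝ) - h + N = T - h := by rw [hTdef]; ring
      rw [e1] at hb
      rw [e2] at hih
      have hrT : (r:ℝ) ≤ T := by rw [hTdef]; linarith
      have key : (h:ℝ) * (T - h) + 5/14 * (T - h)^2 ≤ 5/14 * T^2 + 3 * T := by
        nlinarith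
      nlinarith

theorem LW_region (n r : ℕ) (hn : 1000 ≤ n) (hrn : r ≤ n) (h : 8 * n < 13 * r + 60) :
    LW r (2 * (n - r)) ≤ 0.4994 * (n:ℝ)^2 + 300 * n + 1000 := by
  have c0 : ((2 * (n - r) : ℕ) : ℝ) = 2 * ((n:ℝ) - r) := by push_cast [Nat.cast_sub hrn]; ring
  have hnr : (r:ℝ) ≤ n := by exact_mod_cast hrn
  have hn' : (1000:ℝ) ≤ n := by exact_mod_cast hn
  have hr0 : (0:ℝ) ≤ r := by positivity
  by_cases hcase : 137 * r + 880 ≤ 112 * n
  · -- one step
    obtain ⟨h', hh1, hh2⟩ : ∃ h, 9 * h + 60 ≤ 4 * (2 * n - r) ∧ 4 * (2 * n - r) ≤ 9 * h + 68 :=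
      ⟨(4 * (2 * n - r) - 60) / 9, by omega, by omega⟩
    have hhr : h' ≤ r := by omega
    have hrec := LW_rec r (2 * (n - r)) h' hhr
    have hb := LW_base h' (2 * (n - r) + (r - h')) (by omega)
    have hb2 := LW_base (r - h') (2 * (n - r)) (by omega)
    have c1 : ((r - h' : ℕ) : ℝ) = r - h' := by rw [Nat.cast_sub hhr]
    have c2 : ((2 * (n - r) + (r - h') : ℕ) : ℝ) = 2 * ((n:ℝ) - r) + (r - h') := by
      rw [Nat.cast_add, c0, c1]
    rw [c0, c1] at hb2
    rw [c2] at hb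
    have g1 : (9:ℝ) * h' + 60 ≤ 4 * (2 * n - r) := by
      have : ((9 * h' + 60 : ℕ) : ℝ) ≤ ((4 * (2 * n - r) : ℕ) : ℝ) := by exact_mod_cast hh1
      push_cast [Nat.cast_sub (show r ≤ 2 * n by omega)] at this
      linarith
    have g2 : (4:ℝ) * (2 * n - r) ≤ 9 * h' + 68 := by
      have : ((4 * (2 * n - r) : ℕ) : ℝ) ≤ ((9 * h' + 68 : ℕ) : ℝ) := by exact_mod_cast hh2
      push_cast [Nat.cast_sub (show r ≤ 2 * n by omega)] at this
      linarith
    have h4 : (0:ℝ) ≤ h' := by positivity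
    have hrn' : (h':ℝ) ≤ n := by
      have : h' ≤ n := hhr.trans hrn
      exact_mod_cast this
    -- h'(T-h') ≤ 20/81 T^2
    have k1 : (h':ℝ) * (2 * ((n:ℝ) - r) + (r - h')) ≤ 20/81 * (2 * n - r)^2 := by
      nlinarith
    have k2 : ((r:ℝ) - h') * (2 * ((n:ℝ) - r)) ≤ (13 * r - 8 * n + 68)/9 * (2 * ((n:ℝ) - r)) := by
      apply mul_le_mul_of_nonneg_right _ (by linarith)
      linarith
    have k3 : 20/81 * (2 * (n:ℝ) - r)^2 + (13 * r - 8 * n)/9 * (2 * ((n:ℝ) - r)) ≤ 0.4908 * (n:ℝ)^2 := by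
      nlinarith [sq_nonneg (214 * (r:ℝ) - 149 * n)]
    nlinarith
  · push Not at hcase
    have hG := LW_G r (2 * (n - r))
    rw [c0] at hG
    have g : (112:ℝ) * n < 137 * r + 880 := by exact_mod_cast hcase
    refine hG.trans ?_
    have e : (r:ℝ) + 2 * (n - r) = 2 * n - r := by ring
    rw [e]
    have h1 : 2 * (n:ℝ) - r ≤ (162 * n + 880)/137 := by linarith
    have h2 : (0:ℝ) ≤ 2 * n - r := by linarith
    have h3 : (2 * (n:ℝ) - r)^2 ≤ ((162 * n + 880)/137)^2 := pow_le_pow_left₀ h2 h1 2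
    nlinarith

noncomputable def ff (n : ℕ) : ℕ := ∑ r ∈ range (n+1), (n.choose r)^2 * r.factorial * 4^(r*(n-r))

noncomputable def J (n : ℕ) : ℝ := ((n:ℝ)+1) * (4^n * (n:ℝ)^n * (2:ℝ)^(0.4994 * (n:ℝ)^2 + 300 * n + 1000))

theorem t_le (n r : ℕ) (h : r ≤ n) : (n.choose r)^2 * r.factorial ≤ 4^n * n^n := by
  apply Nat.mul_le_mul
  · calc (n.choose r)^2 ≤ (2^n)^2 := Nat.pow_le_pow_left (Nat.choose_le_two_pow n r) 2
      _ = 4^n := by rw [← pow_mul, mul_comm, pow_mul]; norm_num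
  · exact (Nat.factorial_le h).trans (Nat.factorial_le_pow n)

theorem upper (n : ℕ) (hn : 1000 ≤ n) :
    (numRegular n : ℝ) ≤ Real.exp (65536 * (991/1000)^n * (n + 12)) * ff n + J n := by
  have h1 : (numRegular n : ℝ) ≤ ∑ r ∈ range (n+1), (((n.choose r)^2 * r.factorial : ℕ) : ℝ) * (W r (2 * (n - r)) : ℝ) := by
    have := rr_upper n
    calc (numRegular n : ℝ) ≤ ((∑ r ∈ range (n+1), (n.choose r)^2 * r.factorial * W r (2 * (n - r)) : ℕ) : ℝ) := by
          exact_mod_cast this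
      _ = _ := by push_cast; rfl
  refine h1.trans ?_
  have h2 : Real.exp (65536 * (991/1000)^n * (n + 12)) * ff n + J n =
      ∑ r ∈ range (n+1), (Real.exp (65536 * (991/1000)^n * (n + 12)) *
        ((((n.choose r)^2 * r.factorial : ℕ) : ℝ) * 4^(r * (n - r))) +
        (4^n * (n:ℝ)^n * (2:ℝ)^(0.4994 * (n:ℝ)^2 + 300 * n + 1000))) := by
    rw [Finset.sum_add_distrib, ← Finset.mul_sum, Finset.sum_const, Finset.card_range, nsmul_eq_mul]
    unfold ff J
    push_cast
    rfl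
  rw [h2]
  apply Finset.sum_le_sum
  intro r hr
  have hr : r ≤ n := by
    have := Finset.mem_range.1 hr
    omega
  by_cases hc : 13 * r + 60 ≤ 8 * n
  · have hb := W_base r (2 * (n - r)) (by omega)
    have hx : (1 + 65536 * ((491:ℝ)/500)^(2 * (n - r)))^(r+12) ≤ Real.exp (65536 * (991/1000)^n * (n + 12)) := by
      have e1 : ((491:ℝ)/500)^(2 * (n - r)) ≤ (991/1000)^n := by
        calc ((491:ℝ)/500)^(2 * (n - r)) ≤ ((991/1000)^2)^(2 * (n - r)) := by
              apply pow_le_pow_left₀ (by norm_num)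
              norm_num
          _ = (991/1000)^(2 * (2 * (n - r))) := by rw [← pow_mul]
          _ ≤ (991/1000)^n := by
              apply pow_le_pow_of_le_one (by norm_num) (by norm_num)
              omega
      calc (1 + 65536 * ((491:ℝ)/500)^(2 * (n - r)))^(r+12) ≤ (Real.exp (65536 * (991/1000)^n))^(r+12) := by
            apply pow_le_pow_left₀ (by positivity)
            have := Real.add_one_le_exp (65536 * ((991:ℝ)/1000)^n)
            linarith
        _ = Real.exp (65536 * (991/1000)^n * (r + 12)) := by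
            rw [← Real.exp_nat_mul]; congr 1; push_cast; ring
        _ ≤ _ := by
            apply Real.exp_le_exp.2
            apply mul_le_mul_of_nonneg_left _ (by positivity)
            have : (r:ℝ) ≤ n := by exact_mod_cast hr
            linarith
    have h3 : (W r (2 * (n - r)) : ℝ) ≤ Real.exp (65536 * (991/1000)^n * (n + 12)) * 4^(r * (n - r)) := by
      refine hb.trans ?_
      rw [mul_comm]
      have : (2:ℝ)^(r * (2 * (n - r))) = 4^(r * (n - r)) := by
        rw [show (4:ℝ) = 2^2 by norm_num, ← pow_mul]; congr 1; ring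
      rw [this]
      exact mul_le_mul_of_nonneg_right hx (by positivity)
    have h4 := mul_le_mul_of_nonneg_left h3 (show (0:ℝ) ≤ (((n.choose r)^2 * r.factorial : ℕ) : ℝ) by positivity)
    refine h4.trans ?_
    have h5 : (0:ℝ) ≤ (4^n * (n:ℝ)^n * (2:ℝ)^(0.4994 * (n:ℝ)^2 + 300 * n + 1000)) := by positivity
    have h6 : (((n.choose r)^2 * r.factorial : ℕ) : ℝ) * (Real.exp (65536 * (991/1000)^n * (n + 12)) * 4^(r * (n - r))) =
      Real.exp (65536 * (991/1000)^n * (n + 12)) * ((((n.choose r)^2 * r.factorial : ℕ) : ℝ) * 4^(r * (n - r))) := by ring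
    rw [h6]
    linarith
  · push Not at hc
    have hreg := LW_region n r hn hr hc
    have h3 : (W r (2 * (n - r)) : ℝ) ≤ (2:ℝ)^(0.4994 * (n:ℝ)^2 + 300 * n + 1000) := by
      rw [LW_spec]
      exact Real.rpow_le_rpow_of_exponent_le (by norm_num) hreg
    have h4 : (((n.choose r)^2 * r.factorial : ℕ) : ℝ) ≤ 4^n * (n:ℝ)^n := by
      exact_mod_cast t_le n r hr
    have h5 := mul_le_mul h4 h3 (by positivity) (by positivity)
    have h6 : (0:ℝ) ≤ Real.exp (65536 * (991/1000)^n * (n + 12)) *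
        ((((n.choose r)^2 * r.factorial : ℕ) : ℝ) * 4^(r * (n - r))) := by positivity
    linarith

theorem lower (n : ℕ) (hn : 1 ≤ n) (hE : 0 ≤ 1 - 2 * (n:ℝ)^2 * (17/20)^n) :
    (1 - 2 * (n:ℝ)^2 * (17/20)^n) * (ff n - J n) ≤ numRegular n := by
  have h1 : ∑ r ∈ range (n+1), (((n.choose r)^2 * r.factorial : ℕ) : ℝ) * ((2^r - r : ℕ) : ℝ)^(2 * (n - r)) ≤ (numRegular n : ℝ) := by
    have := rr_lower n
    calc _ = ((∑ r ∈ range (n+1), (n.choose r)^2 * r.factorial * (2^r - r)^(2 * (n - r)) : ℕ) : ℝ) := by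
          rw [Nat.cast_sum]
          apply Finset.sum_congr rfl
          intro r _
          rw [Nat.cast_mul ((n.choose r)^2 * r.factorial) ((2^r - r)^(2 * (n - r))), Nat.cast_pow (2^r - r)]
      _ ≤ _ := by exact_mod_cast this
  refine le_trans ?_ h1
  have h2 : (ff n : ℝ) - J n = ∑ r ∈ range (n+1), ((((n.choose r)^2 * r.factorial : ℕ) : ℝ) * 4^(r * (n - r)) -
      (4^n * (n:ℝ)^n * (2:ℝ)^(0.4994 * (n:ℝ)^2 + 300 * n + 1000))) := by
    rw [Finset.sum_sub_distrib, Finset.sum_const, Finset.card_range, nsmul_eq_mul]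
    unfold ff J
    push_cast
    rfl
  rw [h2, Finset.mul_sum]
  apply Finset.sum_le_sum
  intro r hr
  have hr : r ≤ n := by
    have := Finset.mem_range.1 hr
    omega
  have ht : (0:ℝ) ≤ (((n.choose r)^2 * r.factorial : ℕ) : ℝ) := by positivity
  by_cases hc : n ≤ 4 * r
  · have hr2 : (r:ℝ) < 2^r := by exact_mod_cast Nat.lt_two_pow_self
    have e1 : ((2^r - r : ℕ) : ℝ) = 2^r * (1 - r / 2^r) := by
      rw [Nat.cast_sub Nat.lt_two_pow_self.le]
      push_cast
      field_simp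
    have hq : (r:ℝ) / 2^r ≤ 1 := (div_le_one (by positivity)).2 hr2.le
    have e2 : ((2^r - r : ℕ) : ℝ)^(2 * (n - r)) = 4^(r * (n - r)) * (1 - r/2^r)^(2 * (n - r)) := by
      rw [e1, mul_pow, ← pow_mul]
      congr 1
      rw [show (4:ℝ) = 2^2 by norm_num, ← pow_mul]; congr 1; ring
    have e3 : 1 - 2 * (n:ℝ)^2 * (17/20)^n ≤ (1 - r/2^r)^(2 * (n - r)) := by
      have hb := one_add_mul_le_pow (a := -((r:ℝ)/2^r)) (by linarith) (2 * (n - r))
      have hb' : 1 + ((2 * (n - r) : ℕ) : ℝ) * (-((r:ℝ)/2^r)) ≤ (1 - r/2^r)^(2 * (n - r)) := by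
        refine hb.trans (le_of_eq ?_)
        congr 1
      refine le_trans ?_ hb'
      have h3 : ((2 * (n - r) : ℕ) : ℝ) ≤ 2 * n := by
        have : 2 * (n - r) ≤ 2 * n := by omega
        exact_mod_cast this
      have h4 : (r:ℝ)/2^r ≤ n * (17/20)^n := by
        have h5 : (1:ℝ)/2^r ≤ (17/20)^n := by
          calc (1:ℝ)/2^r = (1/2)^r := by rw [div_pow, one_pow]
            _ ≤ ((17/20)^4)^r := by
              apply pow_le_pow_left₀ (by norm_num)
              norm_num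
            _ = (17/20)^(4 * r) := by rw [← pow_mul]
            _ ≤ (17/20)^n := pow_le_pow_of_le_one (by norm_num) (by norm_num) hc
        calc (r:ℝ)/2^r = r * (1/2^r) := by ring
          _ ≤ n * (17/20)^n := mul_le_mul (by exact_mod_cast hr) h5 (by positivity) (by positivity)
      have h6 : ((2 * (n - r) : ℕ) : ℝ) * ((r:ℝ)/2^r) ≤ 2 * n * (n * (17/20)^n) :=
        mul_le_mul h3 h4 (by positivity) (by positivity)
      linarith
    rw [e2]
    have h7 : (0:ℝ) ≤ (4^n * (n:ℝ)^n * (2:ℝ)^(0.4994 * (n:ℝ)^2 + 300 * n + 1000)) := by positivity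
    have h8 : (0:ℝ) ≤ (((n.choose r)^2 * r.factorial : ℕ) : ℝ) * 4^(r * (n - r)) := by positivity
    calc (1 - 2 * (n:ℝ)^2 * (17/20)^n) * ((((n.choose r)^2 * r.factorial : ℕ) : ℝ) * 4^(r * (n - r)) -
          (4^n * (n:ℝ)^n * (2:ℝ)^(0.4994 * (n:ℝ)^2 + 300 * n + 1000)))
        ≤ (1 - 2 * (n:ℝ)^2 * (17/20)^n) * ((((n.choose r)^2 * r.factorial : ℕ) : ℝ) * 4^(r * (n - r))) := by
          apply mul_le_mul_of_nonneg_left _ hE
          linarith
      _ ≤ (1 - r/2^r)^(2 * (n - r)) * ((((n.choose r)^2 * r.factorial : ℕ) : ℝ) * 4^(r * (n - r))) :=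
          mul_le_mul_of_nonneg_right e3 h8
      _ = _ := by ring
  · push Not at hc
    have h3 : (4:ℝ)^(r * (n - r)) ≤ (2:ℝ)^(0.4994 * (n:ℝ)^2 + 300 * n + 1000) := by
      have : (4:ℝ)^(r * (n - r)) = (2:ℝ)^(2 * ((r:ℝ) * (n - r))) := by
        rw [show (4:ℝ) = 2^2 by norm_num, ← pow_mul, ← Real.rpow_natCast]
        congr 1
        push_cast [Nat.cast_sub hr]
        ring
      rw [this]
      apply Real.rpow_le_rpow_of_exponent_le (by norm_num)
      have hc' : 4 * (r:ℝ) ≤ n := by exact_mod_cast hc.le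
      have hn0 : (0:ℝ) ≤ n := by positivity
      have hr0 : (0:ℝ) ≤ r := by positivity
      nlinarith
    have h4 : (((n.choose r)^2 * r.factorial : ℕ) : ℝ) ≤ 4^n * (n:ℝ)^n := by
      exact_mod_cast t_le n r hr
    have h5 := mul_le_mul h4 h3 (by positivity) (by positivity)
    have h6 : (1 - 2 * (n:ℝ)^2 * (17/20)^n) * ((((n.choose r)^2 * r.factorial : ℕ) : ℝ) * 4^(r * (n - r)) -
          (4^n * (n:ℝ)^n * (2:ℝ)^(0.4994 * (n:ℝ)^2 + 300 * n + 1000))) ≤ 0 := by
      apply mul_nonpos_of_nonneg_of_nonpos hE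
      linarith
    refine h6.trans (by positivity)

theorem ff_ge (n : ℕ) : (2:ℝ)^(((n:ℝ)^2 - 1)/2) ≤ ff n := by
  have h1 : 4^((n/2) * (n - n/2)) ≤ ff n := by
    unfold ff
    have hmem : n/2 ∈ range (n+1) := by
      rw [Finset.mem_range]; omega
    refine le_trans ?_ (Finset.single_le_sum (f := fun r => (n.choose r)^2 * r.factorial * 4^(r*(n-r))) (fun _ _ => Nat.zero_le _) hmem)
    have : 0 < (n.choose (n/2))^2 * (n/2).factorial := by
      have := Nat.choose_pos (n := n) (k := n/2) (by omega)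
      have := Nat.factorial_pos (n/2)
      positivity
    exact Nat.le_mul_of_pos_left _ this
  have h2 : ((4:ℝ))^((n/2) * (n - n/2)) ≤ ff n := by exact_mod_cast h1
  refine le_trans ?_ h2
  have : (4:ℝ)^((n/2) * (n - n/2)) = (2:ℝ)^(2 * (((n/2 : ℕ):ℝ) * ((n - n/2 : ℕ) : ℝ))) := by
    rw [show (4:ℝ) = 2^2 by norm_num, ← pow_mul, ← Real.rpow_natCast]
    congr 1
    push_cast
    ring
  rw [this]
  apply Real.rpow_le_rpow_of_exponent_le (by norm_num)
  rcases Nat.even_or_odd' n with ⟨m, hm | hm⟩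
  · have a1 : n/2 = m := by omega
    have a2 : n - n/2 = m := by omega
    rw [a2, a1, hm]
    push_cast
    nlinarith
  · have a1 : n/2 = m := by omega
    have a2 : n - n/2 = m + 1 := by omega
    rw [a2, a1, hm]
    push_cast
    nlinarith

theorem J_small : Tendsto (fun n : ℕ => J n / (2:ℝ)^(((n:ℝ)^2 - 1)/2)) atTop (𝓝 0) := by
  have hev : ∀ᶠ n : ℕ in atTop, (n:ℝ) ≤ ((2:ℝ)^(0.0001:ℝ))^n := by
    have h1 : Tendsto (fun n : ℕ => (n:ℝ)^1 * (((2:ℝ)^(0.0001:ℝ))⁻¹)^n) atTop (𝓝 0) := by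
      apply tendsto_pow_const_mul_const_pow_of_abs_lt_one
      rw [abs_of_pos (by positivity)]
      apply inv_lt_one_of_one_lt₀
      exact Real.one_lt_rpow (by norm_num) (by norm_num)
    filter_upwards [h1.eventually (gt_mem_nhds (show (0:ℝ) < 1 by norm_num))] with n hn
    have hp : (0:ℝ) < ((2:ℝ)^(0.0001:ℝ))^n := by positivity
    rw [pow_one, inv_pow, ← div_eq_mul_inv, div_lt_one hp] at hn
    exact hn.le
  have hle : ∀ᶠ n : ℕ in atTop, J n / (2:ℝ)^(((n:ℝ)^2 - 1)/2) ≤ (1/2)^n := by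
    filter_upwards [hev, eventually_ge_atTop 10000000] with n hn hn1
    have hn1' : (10000000:ℝ) ≤ n := by exact_mod_cast hn1
    have hn2 : (n:ℝ)^n ≤ (2:ℝ)^(0.0001 * (n:ℝ)^2) := by
      calc (n:ℝ)^n ≤ (((2:ℝ)^(0.0001:ℝ))^n)^n := pow_le_pow_left₀ (by positivity) hn n
        _ = (2:ℝ)^(0.0001 * (n:ℝ)^2) := by
          rw [← pow_mul, ← Real.rpow_natCast, ← Real.rpow_mul (by norm_num)]
          congr 1
          push_cast
          ring
    have hn3 : (n:ℝ) + 1 ≤ (2:ℝ)^(n:ℝ) := by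
      rw [Real.rpow_natCast]
      exact_mod_cast Nat.lt_two_pow_self
    have hn4 : (4:ℝ)^n = (2:ℝ)^(2 * (n:ℝ)) := by
      rw [show (4:ℝ) = 2^2 by norm_num, ← pow_mul, ← Real.rpow_natCast]
      push_cast
      rfl
    rw [div_le_iff₀ (by positivity)]
    unfold J
    calc ((n:ℝ)+1) * (4^n * (n:ℝ)^n * (2:ℝ)^(0.4994 * (n:ℝ)^2 + 300 * n + 1000))
        ≤ (2:ℝ)^(n:ℝ) * ((2:ℝ)^(2 * (n:ℝ)) * (2:ℝ)^(0.0001 * (n:ℝ)^2) * (2:ℝ)^(0.4994 * (n:ℝ)^2 + 300 * n + 1000)) := by
          rw [hn4]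
          gcongr
      _ = (2:ℝ)^((n:ℝ) + (2 * n + 0.0001 * (n:ℝ)^2 + (0.4994 * (n:ℝ)^2 + 300 * n + 1000))) := by
          rw [Real.rpow_add (by norm_num) (n:ℝ), Real.rpow_add (by norm_num) (2 * (n:ℝ) + _),
            Real.rpow_add (by norm_num) (2 * (n:ℝ))]
      _ ≤ (2:ℝ)^(-(n:ℝ) + ((n:ℝ)^2 - 1)/2) := by
          apply Real.rpow_le_rpow_of_exponent_le (by norm_num)
          nlinarith
      _ = (1/2)^n * (2:ℝ)^(((n:ℝ)^2 - 1)/2) := by
          rw [Real.rpow_add (by norm_num), Real.rpow_neg (by norm_num), Real.rpow_natCast, one_div, inv_pow]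
  refine squeeze_zero' (Eventually.of_forall (fun n => ?_)) hle
    (tendsto_pow_atTop_nhds_zero_of_lt_one (by norm_num) (by norm_num))
  unfold J
  positivity

theorem main : Tendsto (fun n : ℕ => (numRegular n : ℝ) / (ff n : ℝ)) atTop (𝓝 1) := by
  have hJ : Tendsto (fun n : ℕ => J n / (ff n : ℝ)) atTop (𝓝 0) := by
    refine squeeze_zero (fun n => by unfold J; positivity) (fun n => ?_) J_small
    apply div_le_div_of_nonneg_left (by unfold J; positivity) (by positivity) (ff_ge n)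
  have hff : ∀ n, (0:ℝ) < ff n := fun n => lt_of_lt_of_le (by positivity) (ff_ge n)
  have hE : Tendsto (fun n : ℕ => 1 - 2 * (n:ℝ)^2 * (17/20)^n) atTop (𝓝 1) := by
    have h1 : Tendsto (fun n : ℕ => (n:ℝ)^2 * ((17/20:ℝ))^n) atTop (𝓝 0) := by
      apply tendsto_pow_const_mul_const_pow_of_abs_lt_one
      rw [abs_of_pos (by norm_num)]
      norm_num
    have h2 := (h1.const_mul 2).const_sub 1
    simp only [mul_zero, sub_zero] at h2
    refine h2.congr (fun n => by ring)
  have hD : Tendsto (fun n : ℕ => Real.exp (65536 * (991/1000)^n * (n + 12))) atTop (𝓝 1) := by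
    have h1 : Tendsto (fun n : ℕ => (n:ℝ)^1 * ((991/1000:ℝ))^n) atTop (𝓝 0) := by
      apply tendsto_pow_const_mul_const_pow_of_abs_lt_one
      rw [abs_of_pos (by norm_num)]
      norm_num
    have h0 : Tendsto (fun n : ℕ => ((991/1000:ℝ))^n) atTop (𝓝 0) :=
      tendsto_pow_atTop_nhds_zero_of_lt_one (by norm_num) (by norm_num)
    have h2 := (h1.const_mul 65536).add (h0.const_mul (65536 * 12))
    simp only [mul_zero, add_zero] at h2
    have h3 : Tendsto (fun n : ℕ => 65536 * (991/1000:ℝ)^n * (n + 12)) atTop (𝓝 0) :=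
      h2.congr (fun n => by ring)
    have h4 := (Real.continuous_exp.tendsto 0).comp h3
    rw [Real.exp_zero] at h4
    exact h4
  have hlow : Tendsto (fun n : ℕ => (1 - 2 * (n:ℝ)^2 * (17/20)^n) * (1 - J n / ff n)) atTop (𝓝 1) := by
    have := hE.mul (hJ.const_sub 1)
    simpa using this
  have hup : Tendsto (fun n : ℕ => Real.exp (65536 * (991/1000)^n * (n + 12)) + J n / ff n) atTop (𝓝 1) := by
    have := hD.add hJ
    simpa using this
  refine tendsto_of_tendsto_of_tendsto_of_le_of_le' hlow hup ?_ ?_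
  · filter_upwards [eventually_ge_atTop 1, hE.eventually (lt_mem_nhds (show (0:ℝ) < 1 by norm_num))] with n hn hn2
    have h := lower n hn hn2.le
    rw [le_div_iff₀ (hff n)]
    have : (1 - 2 * (n:ℝ)^2 * (17/20)^n) * (1 - J n / ff n) * ff n = (1 - 2 * (n:ℝ)^2 * (17/20)^n) * (ff n - J n) := by
      have := (hff n).ne'
      field_simp
    rw [this]
    exact h
  · filter_upwards [eventually_ge_atTop 1000] with n hn
    have h := upper n hn
    rw [div_le_iff₀ (hff n)]
    have : (Real.exp (65536 * (991/1000)^n * (n + 12)) + J n / ff n) * ff n = Real.exp (65536 * (991/1000)^n * (n + 12)) * ff n + J n := by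
      have := (hff n).ne'
      field_simp
    rw [this]
    exact h

theorem even_odd {u : ℕ → ℝ} {a : ℝ} (h0 : Tendsto (fun m => u (2*m)) atTop (𝓝 a))
    (h1 : Tendsto (fun m => u (2*m+1)) atTop (𝓝 a)) : Tendsto u atTop (𝓝 a) := by
  rw [tendsto_def] at h0 h1 ⊢
  intro s hs
  have e0 := h0 s hs
  have e1 := h1 s hs
  rw [mem_atTop_sets] at e0 e1 ⊢
  obtain ⟨N0, hN0⟩ := e0
  obtain ⟨N1, hN1⟩ := e1
  refine ⟨2 * (max N0 N1) + 1, fun n hn => ?_⟩
  rcases Nat.even_or_odd' n with ⟨m, hm | hm⟩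
  · have := hN0 m (by have := le_max_left N0 N1; omega)
    rw [hm]; exact this
  · have := hN1 m (by have := le_max_right N0 N1; omega)
    rw [hm]; exact this

noncomputable def cc (n : ℕ) : ℝ := 2 * 4^n / (√(Real.pi * n) * Real.exp ((n:ℝ)/2))

noncomputable def q (n r : ℕ) : ℝ := (n.choose r : ℝ)^2 * (r.factorial : ℝ) / (cc n * ((n:ℝ)/2)^r)

theorem q_even (m : ℕ) (hm : 1 ≤ m) :
    q (2*m) m = (Stirling.stirlingSeq (2*m))^2 / (Stirling.stirlingSeq m)^3 * √Real.pi := by
  have hm0 : (0:ℝ) < m := by exact_mod_cast hm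
  set E : ℝ := ((m:ℝ) / Real.exp 1)^m with hE
  have hEpos : 0 < E := by positivity
  have hexp : Real.exp ((m:ℝ)) = (m:ℝ)^m / E := by
    rw [hE, div_pow, ← Real.exp_nat_mul, mul_one]
    field_simp
  have hs1 : Stirling.stirlingSeq m = (m.factorial : ℝ) / (√(2 * m) * E) := rfl
  have hs2 : Stirling.stirlingSeq (2*m) = ((2*m).factorial : ℝ) / (√2 * √(2 * m) * (4^m * E^2)) := by
    unfold Stirling.stirlingSeq
    push_cast
    have e1 : √(2 * (2 * (m:ℝ))) = √2 * √(2 * m) := Real.sqrt_mul (by norm_num) _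
    have e2 : (2 * (m:ℝ) / Real.exp 1)^(2 * m) = 4^m * E^2 := by
      rw [hE, show (2 * (m:ℝ) / Real.exp 1) = 2 * (m / Real.exp 1) by ring, mul_pow, ← pow_mul, pow_mul 2 2 m]
      norm_num
      rw [mul_comm]
    rw [e1, e2]
  have hC : ((2*m).choose m : ℝ) = ((2*m).factorial : ℝ) / (m.factorial : ℝ)^2 := by
    have := Nat.choose_mul_factorial_mul_factorial (n := 2*m) (k := m) (by omega)
    rw [show 2*m - m = m by omega] at this
    have h2 : ((2*m).choose m : ℝ) * m.factorial * m.factorial = (2*m).factorial := by exact_mod_cast this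
    rw [← h2]
    have : (m.factorial : ℝ) ≠ 0 := by positivity
    field_simp
  have hfm : (0:ℝ) < m.factorial := by positivity
  have hf2m : (0:ℝ) < (2*m).factorial := by positivity
  have hsq : √(2 * (m:ℝ))^2 = 2 * m := Real.sq_sqrt (by positivity)
  have hsq2 : √(2:ℝ)^2 = 2 := Real.sq_sqrt (by norm_num)
  have hsp : √(Real.pi)^2 = Real.pi := Real.sq_sqrt Real.pi_pos.le
  have hs2m : 0 < √(2 * (m:ℝ)) := by positivity
  have hs2' : 0 < √(2:ℝ) := by positivity
  have hsp' : 0 < √(Real.pi) := by positivity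
  unfold q cc
  rw [hs1, hs2, hC]
  have e3 : √(Real.pi * ((2 * m : ℕ) : ℝ)) = √Real.pi * √(2 * m) := by
    rw [Real.sqrt_mul Real.pi_pos.le]; push_cast; rfl
  have e4 : (((2 * m : ℕ) : ℝ)/2) = m := by push_cast; ring
  rw [e3, e4, hexp]
  have e5 : (4:ℝ)^(2*m) = (4^m)^2 := by rw [← pow_mul, mul_comm]
  rw [e5]
  generalize √(2 * (m:ℝ)) = x at *
  generalize √(2:ℝ) = y at *
  generalize √(Real.pi) = z at *
  generalize ((m.factorial : ℕ) : ℝ) = M at *
  generalize (((2*m).factorial : ℕ) : ℝ) = F at *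
  have h4 : (0:ℝ) < 4^m := by positivity
  generalize (4:ℝ)^m = P at *
  have hmm : (0:ℝ) < (m:ℝ)^m := by positivity
  generalize (m:ℝ)^m = R at *
  field_simp
  have : y^2 = 2 := hsq2
  rw [this]

theorem q_odd (m : ℕ) (hm : 1 ≤ m) :
    q (2*m+1) m = q (2*m) m * (((2*(m:ℝ)+1)/(m+1))^2 * √((2*m+1)/(2*m)) * Real.exp (1/2) / 4 /
      (1 + (1/2)/(m:ℝ))^m) := by
  have hm0 : (0:ℝ) < m := by exact_mod_cast hm
  have hC : ((2*m+1).choose m : ℝ) = ((2*m).choose m : ℝ) * ((2*m+1)/(m+1)) := by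
    have h1 := Nat.add_one_mul_choose_eq (2*m) m
    have h2 : (2*m+1).choose (m+1) = (2*m+1).choose m := by
      rw [← Nat.choose_symm_of_eq_add]
      omega
    rw [h2] at h1
    have h3 : ((2*m+1 : ℕ):ℝ) * ((2*m).choose m : ℝ) = ((2*m+1).choose m : ℝ) * ((m+1 : ℕ) : ℝ) := by exact_mod_cast h1
    push_cast at h3
    field_simp
    linarith
  unfold q cc
  rw [hC]
  have e1 : √(Real.pi * ((2 * m + 1 : ℕ) : ℝ)) = √(Real.pi * ((2 * m : ℕ) : ℝ)) * √((2*m+1)/(2*m)) := by
    rw [← Real.sqrt_mul (by positivity)]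
    congr 1
    push_cast
    field_simp
  have e2 : Real.exp (((2 * m + 1 : ℕ) : ℝ)/2) = Real.exp (((2 * m : ℕ) : ℝ)/2) * Real.exp (1/2) := by
    rw [← Real.exp_add]; congr 1; push_cast; ring
  have e3 : (((2 * m + 1 : ℕ) : ℝ)/2)^m = (((2 * m : ℕ) : ℝ)/2)^m * (1 + (1/2)/(m:ℝ))^m := by
    rw [← mul_pow]; congr 1; push_cast; field_simp
  have e4 : (4:ℝ)^(2*m+1) = 4^(2*m) * 4 := by rw [pow_succ]
  rw [e1, e2, e3, e4]
  have h1 : 0 < √(Real.pi * ((2 * m : ℕ) : ℝ)) := by
    apply Real.sqrt_pos.2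
    have : (0:ℝ) < ((2*m : ℕ) : ℝ) := by positivity
    positivity
  have h2 : 0 < √((2*(m:ℝ)+1)/(2*m)) := by positivity
  have h3 : 0 < Real.exp (((2 * m : ℕ) : ℝ)/2) := by positivity
  have h4 : 0 < Real.exp ((1:ℝ)/2) := by positivity
  have h5 : 0 < (((2 * m : ℕ) : ℝ)/2)^m := by positivity
  have h6 : 0 < (1 + (1/2)/(m:ℝ))^m := by positivity
  generalize √(Real.pi * ((2 * m : ℕ) : ℝ)) = a at *
  generalize √((2*(m:ℝ)+1)/(2*m)) = b at *
  generalize Real.exp (((2 * m : ℕ) : ℝ)/2) = c at *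
  generalize Real.exp ((1:ℝ)/2) = d at *
  generalize (((2 * m : ℕ) : ℝ)/2)^m = e at *
  generalize (1 + (1/2)/(m:ℝ))^m = f at *
  field_simp

theorem q_center : Tendsto (fun n : ℕ => q n (n/2)) atTop (𝓝 1) := by
  have hS := Stirling.tendsto_stirlingSeq_sqrt_pi
  have hS2 : Tendsto (fun m : ℕ => Stirling.stirlingSeq (2*m)) atTop (𝓝 (√Real.pi)) :=
    hS.comp (tendsto_id.const_mul_atTop' (by norm_num))
  have hpi : 0 < √Real.pi := by positivity
  have h0 : Tendsto (fun m : ℕ => q (2*m) m) atTop (𝓝 1) := by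
    have h := ((hS2.pow 2).div (hS.pow 3) (by positivity)).mul_const (√Real.pi)
    have e : √Real.pi^2 / √Real.pi^3 * √Real.pi = 1 := by field_simp
    rw [e] at h
    refine h.congr' ?_
    filter_upwards [eventually_ge_atTop 1] with m hm
    rw [q_even m hm]
    rfl
  apply even_odd
  · refine h0.congr (fun m => ?_)
    rw [show 2*m/2 = m by omega]
  · have hinv : Tendsto (fun m : ℕ => ((m:ℝ))⁻¹) atTop (𝓝 0) := tendsto_inv_atTop_nhds_zero_nat
    have a1 : Tendsto (fun m : ℕ => ((2*(m:ℝ)+1)/(m+1))^2) atTop (𝓝 (2^2)) := by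
      apply Tendsto.pow
      have : Tendsto (fun m : ℕ => (2 + (m:ℝ)⁻¹)/(1 + (m:ℝ)⁻¹)) atTop (𝓝 ((2+0)/(1+0))) :=
        (hinv.const_add 2).div (hinv.const_add 1) (by norm_num)
      rw [show ((2:ℝ)+0)/(1+0) = 2 by norm_num] at this
      refine this.congr' ?_
      filter_upwards [eventually_ge_atTop 1] with m hm
      have : (0:ℝ) < m := by exact_mod_cast hm
      field_simp
    have a2 : Tendsto (fun m : ℕ => √((2*(m:ℝ)+1)/(2*m))) atTop (𝓝 1) := by
      have : Tendsto (fun m : ℕ => (1 + (m:ℝ)⁻¹ / 2)) atTop (𝓝 (1 + 0/2)) :=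
        (hinv.div_const 2).const_add 1
      rw [show (1:ℝ)+0/2 = 1 by norm_num] at this
      have h := (Real.continuous_sqrt.tendsto 1).comp this
      rw [Real.sqrt_one] at h
      refine h.congr' ?_
      filter_upwards [eventually_ge_atTop 1] with m hm
      have : (0:ℝ) < m := by exact_mod_cast hm
      simp only [Function.comp]
      congr 1
      field_simp
    have a3 : Tendsto (fun m : ℕ => (1 + (1/2)/(m:ℝ))^m) atTop (𝓝 (Real.exp (1/2))) :=
      Real.tendsto_one_add_div_pow_exp (1/2)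
    have h := h0.mul ((((a1.mul a2).mul_const (Real.exp (1/2))).div_const 4).div a3 (Real.exp_pos _).ne')
    have e : (1:ℝ) * (2^2 * 1 * Real.exp (1/2) / 4 / Real.exp (1/2)) = 1 := by
      have : Real.exp (1/2) ≠ 0 := (Real.exp_pos _).ne'
      field_simp
      norm_num
    rw [e] at h
    refine h.congr' ?_
    filter_upwards [eventually_ge_atTop 1] with m hm
    rw [show (2*m+1)/2 = m by omega, q_odd m hm]
    rfl

theorem cc_pos (n : ℕ) (hn : 1 ≤ n) : 0 < cc n := by
  unfold cc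
  have : (0:ℝ) < n := by exact_mod_cast hn
  positivity

theorem q_nonneg (n r : ℕ) : 0 ≤ q n r := by
  unfold q cc; positivity

theorem q_succ (n r : ℕ) (hn : 1 ≤ n) (hr : r ≤ n) :
    q n (r+1) * (((r:ℝ)+1) * n) = q n r * (2 * ((n:ℝ)-r)^2) := by
  have h1 : (n.choose (r+1) : ℝ) * (r+1) = n.choose r * ((n:ℝ) - r) := by
    have := Nat.choose_succ_right_eq n r
    have h : (n.choose (r+1) : ℝ) * ((r+1 : ℕ):ℝ) = n.choose r * ((n - r : ℕ) : ℝ) := by exact_mod_cast this
    rw [Nat.cast_sub hr] at h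
    push_cast at h
    exact h
  have hn0 : (0:ℝ) < n := by exact_mod_cast hn
  have hc := cc_pos n hn
  unfold q
  rw [Nat.factorial_succ]
  push_cast
  have h2 : (n.choose (r+1) : ℝ)^2 * (((r:ℝ)+1) * r.factorial) * (r+1) =
      (n.choose r * ((n:ℝ) - r))^2 * r.factorial := by rw [← h1]; ring
  have hp : (0:ℝ) < ((n:ℝ)/2)^r := by positivity
  rw [pow_succ ((n:ℝ)/2)]
  rw [div_mul_eq_mul_div, div_mul_eq_mul_div, div_eq_div_iff (by positivity) (by positivity)]
  calc (n.choose (r+1) : ℝ)^2 * (((r:ℝ)+1) * r.factorial) * (((r:ℝ)+1) * n) * (cc n * ((n:ℝ)/2)^r)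
      = ((n.choose (r+1) : ℝ)^2 * (((r:ℝ)+1) * r.factorial) * (r+1)) * (n * (cc n * ((n:ℝ)/2)^r)) := by ring
    _ = _ := by rw [h2]; ring

/-- one step comparison inside the window -/
theorem q_step (n r : ℕ) (N2 t : ℝ) (hn : 1 ≤ n) (hr : r ≤ n) (hN : N2 = (n:ℝ)/2) (ht0 : 0 ≤ t) (ht : 6 * t ≤ 1)
    (h1 : N2 * (1 - t) ≤ (n:ℝ) - r) (h2 : (n:ℝ) - r ≤ N2 * (1 + t))
    (h3 : N2 * (1 - t) ≤ (r:ℝ) + 1) (h4 : (r:ℝ) + 1 ≤ N2 * (1 + t)) :
    q n r * (1 - 6 * t) ≤ q n (r+1) ∧ q n (r+1) * (1 - 6 * t) ≤ q n r := by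
  have hs := q_succ n r hn hr
  have hn0 : (0:ℝ) < n := by exact_mod_cast hn
  have hNp : 0 < N2 := by rw [hN]; positivity
  have hn2 : (n:ℝ) = 2 * N2 := by rw [hN]; ring
  have hq0 := q_nonneg n r
  have hq1 := q_nonneg n (r+1)
  have hz : (0:ℝ) < ((r:ℝ)+1) * n := by positivity
  set y : ℝ := (n:ℝ) - r with hy
  have hy0 : 0 ≤ N2 * (1 - t) := by
    apply mul_nonneg hNp.le; linarith
  have hylow : (N2 * (1 - t))^2 ≤ y^2 := pow_le_pow_left₀ hy0 h1 2
  have hyup : y^2 ≤ (N2 * (1 + t))^2 := pow_le_pow_left₀ (hy0.trans h1) h2 2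
  have hNN : 0 < N2^2 := by positivity
  constructor
  · apply le_of_mul_le_mul_right _ hz
    rw [hs, mul_assoc]
    apply mul_le_mul_of_nonneg_left _ hq0
    -- (1-6t) (r+1) n ≤ 2 y^2
    have e1 : (1 - 6 * t) * (((r:ℝ)+1) * n) ≤ (1 - 6*t) * ((N2 * (1+t)) * (2 * N2)) := by
      apply mul_le_mul_of_nonneg_left _ (by linarith)
      rw [hn2]
      exact mul_le_mul_of_nonneg_right h4 (by positivity)
    have e2 : (1 - 6*t) * ((N2 * (1+t)) * (2 * N2)) ≤ 2 * (N2 * (1-t))^2 := by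
      have : (1 - 6*t)*(1+t) ≤ (1-t)^2 := by nlinarith
      have := mul_le_mul_of_nonneg_left this (show (0:ℝ) ≤ 2 * N2^2 by positivity)
      nlinarith
    linarith
  · have hy2 : q n r * (2 * y^2) * (1 - 6*t) ≤ q n r * (((r:ℝ)+1) * n) := by
      rw [mul_assoc]
      apply mul_le_mul_of_nonneg_left _ hq0
      have e1 : 2 * y^2 * (1 - 6*t) ≤ 2 * (N2 * (1+t))^2 * (1 - 6*t) := by
        apply mul_le_mul_of_nonneg_right _ (by linarith)
        linarith
      have e2 : 2 * (N2 * (1+t))^2 * (1 - 6*t) ≤ (N2 * (1-t)) * (2 * N2) := by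
        have h5 : (1+t)^2 * (1 - 6*t) ≤ 1 - t := by
          nlinarith [mul_nonneg ht0 ht0, mul_nonneg (mul_nonneg ht0 ht0) ht0]
        have := mul_le_mul_of_nonneg_left h5 (show (0:ℝ) ≤ 2 * N2^2 by positivity)
        nlinarith
      have e3 : (N2 * (1-t)) * (2 * N2) ≤ ((r:ℝ)+1) * n := by
        rw [hn2]
        exact mul_le_mul_of_nonneg_right h3 (by positivity)
      linarith
    rw [← hs] at hy2
    apply le_of_mul_le_mul_right _ hz
    calc q n (r+1) * (1 - 6*t) * (((r:ℝ)+1) * n) = q n (r+1) * (((r:ℝ)+1) * n) * (1 - 6*t) := by ring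
      _ ≤ _ := hy2

theorem q_chain (n K : ℕ) (t : ℝ) (hn : 1 ≤ n) (hK : K + 1 ≤ n/2) (ht : t = (2 * (K:ℝ) + 2)/n) (ht6 : 6 * t ≤ 1)
    (r i : ℕ) (hr : n/2 ≤ r + K) (hri : r + i ≤ n/2 + K) :
    q n r * (1 - 6 * t)^i ≤ q n (r+i) ∧ q n (r+i) * (1 - 6 * t)^i ≤ q n r := by
  have hn0 : (0:ℝ) < n := by exact_mod_cast hn
  have ht0 : 0 ≤ t := by rw [ht]; positivity
  have hNt : (n:ℝ)/2 * t = K + 1 := by rw [ht]; field_simp
  induction i with
  | zero => simp
  | succ i ih =>
    obtain ⟨ih1, ih2⟩ := ih (by omega)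
    have hb1 : (n:ℝ) ≤ 2 * ((n/2 : ℕ):ℝ) + 1 := by
      have : n ≤ 2 * (n/2) + 1 := by omega
      exact_mod_cast this
    have hb2 : 2 * ((n/2 : ℕ):ℝ) ≤ (n:ℝ) := by
      have : 2 * (n/2) ≤ n := by omega
      exact_mod_cast this
    have hc1 : ((n/2 : ℕ):ℝ) ≤ ((r+i : ℕ) : ℝ) + K := by
      have : n/2 ≤ r + i + K := by omega
      exact_mod_cast this
    have hc2 : ((r+i : ℕ) : ℝ) + 1 ≤ ((n/2 : ℕ):ℝ) + K := by
      have : r + i + 1 ≤ n/2 + K := by omega
      exact_mod_cast this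
    have hle : r + i ≤ n := by omega
    obtain ⟨s1, s2⟩ := q_step n (r+i) ((n:ℝ)/2) t hn hle rfl ht0 ht6
      (by rw [mul_sub, hNt]; linarith) (by rw [mul_add, hNt]; linarith)
      (by rw [mul_sub, hNt]; linarith) (by rw [mul_add, hNt]; linarith)
    have h16 : 0 ≤ 1 - 6*t := by linarith
    constructor
    · calc q n r * (1 - 6 * t)^(i+1) = (q n r * (1 - 6*t)^i) * (1 - 6*t) := by ring
        _ ≤ q n (r+i) * (1 - 6*t) := mul_le_mul_of_nonneg_right ih1 h16
        _ ≤ q n (r+(i+1)) := s1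
    · calc q n (r+(i+1)) * (1 - 6*t)^(i+1) = (q n (r+i+1) * (1 - 6*t)) * (1 - 6*t)^i := by
            rw [pow_succ, ← add_assoc]; ring
        _ ≤ q n (r+i) * (1 - 6*t)^i := mul_le_mul_of_nonneg_right s2 (by positivity)
        _ ≤ q n r := ih2

theorem q_window (n K : ℕ) (t : ℝ) (hn : 1 ≤ n) (hK : K + 1 ≤ n/2) (ht : t = (2 * (K:ℝ) + 2)/n) (ht6 : 6 * t ≤ 1)
    (r : ℕ) (hr : n/2 ≤ r + K) (hr2 : r ≤ n/2 + K) :
    q n (n/2) * (1 - 6 * K * t) ≤ q n r ∧ q n r * (1 - 6 * K * t) ≤ q n (n/2) := by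
  have ht0 : 0 ≤ t := by rw [ht]; positivity
  have h16 : 0 ≤ 1 - 6*t := by linarith
  have hpow : ∀ i, i ≤ K → 1 - 6 * K * t ≤ (1 - 6*t)^i := by
    intro i hi
    have h1 : (1 - 6*t)^K ≤ (1 - 6*t)^i := pow_le_pow_of_le_one h16 (by linarith) hi
    have h2 := one_add_mul_le_pow (a := -(6*t)) (by linarith) K
    have h3 : (1:ℝ) + K * (-(6*t)) = 1 - 6 * K * t := by ring
    have h4 : (1:ℝ) + -(6*t) = 1 - 6*t := by ring
    rw [h3, h4] at h2
    linarith
  rcases le_total (n/2) r with h | h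
  · obtain ⟨i, rfl⟩ := Nat.exists_eq_add_of_le h
    obtain ⟨h1, h2⟩ := q_chain n K t hn hK ht ht6 (n/2) i (by omega) hr2
    have hp := hpow i (by omega)
    exact ⟨(mul_le_mul_of_nonneg_left hp (q_nonneg _ _)).trans h1,
      (mul_le_mul_of_nonneg_left hp (q_nonneg _ _)).trans h2⟩
  · obtain ⟨i, hi⟩ := Nat.exists_eq_add_of_le h
    obtain ⟨h1, h2⟩ := q_chain n K t hn hK ht ht6 r i hr (by omega)
    rw [← hi] at h1 h2
    have hp := hpow i (by omega)
    exact ⟨(mul_le_mul_of_nonneg_left hp (q_nonneg _ _)).trans h2,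
      (mul_le_mul_of_nonneg_left hp (q_nonneg _ _)).trans h1⟩

/-- tail lemma -/
theorem tail {f : ℤ → ℝ} (hf : Summable f) (h0 : ∀ k, 0 ≤ f k) (w : Finset ℤ) (ρ : ℝ) (hρ : 0 ≤ ρ)
    (h : ∀ k, k ∉ w → f k ≤ ρ * (f (k-1) + f (k+1))) :
    ∑' k, f k ≤ ∑ k ∈ w, f k + 2 * ρ * ∑' k, f k := by
  classical
  have s1 : Summable (fun k : ℤ => f (k - 1)) := (Equiv.subRight (1:ℤ)).summable_iff.2 hf
  have s2 : Summable (fun k : ℤ => f (k + 1)) := (Equiv.addRight (1:ℤ)).summable_iff.2 hf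
  have t1 : ∑' k : ℤ, f (k - 1) = ∑' k, f k := (Equiv.subRight (1:ℤ)).tsum_eq f
  have t2 : ∑' k : ℤ, f (k + 1) = ∑' k, f k := (Equiv.addRight (1:ℤ)).tsum_eq f
  have s3 : Summable (fun k : ℤ => if k ∈ w then f k else 0) := by
    apply summable_of_ne_finset_zero (s := w)
    intro b hb
    simp [hb]
  have t3 : ∑' k : ℤ, (if k ∈ w then f k else 0) = ∑ k ∈ w, f k := by
    rw [tsum_eq_sum (s := w)]
    · apply Finset.sum_congr rfl
      intro k hk
      simp [hk]
    · intro b hb; simp [hb]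
  have s4 := (s1.add s2).mul_left ρ
  calc ∑' k, f k ≤ ∑' k, ((if k ∈ w then f k else 0) + ρ * (f (k-1) + f (k+1))) := by
        apply Summable.tsum_le_tsum _ hf (s3.add s4)
        intro k
        by_cases hk : k ∈ w
        · simp only [hk, if_true]
          have := h0 (k-1)
          have := h0 (k+1)
          have : 0 ≤ ρ * (f (k-1) + f (k+1)) := by positivity
          linarith
        · simp only [hk, if_false, zero_add]
          exact h k hk
    _ = _ := by
        rw [Summable.tsum_add s3 s4, t3, tsum_mul_left, Summable.tsum_add s1 s2, t1, t2]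
        ring

noncomputable def bb (n : ℕ) (k : ℤ) : ℝ := ((n:ℝ)/2)^k * (4:ℝ)^(k * ((n:ℤ) - k))

noncomputable def aZ (n : ℕ) (k : ℤ) : ℝ := if 0 ≤ k then q n k.toNat * bb n k else 0

theorem bb_pos (n : ℕ) (hn : 1 ≤ n) (k : ℤ) : 0 < bb n k := by
  unfold bb
  have : (0:ℝ) < n := by exact_mod_cast hn
  positivity

theorem bb_succ (n : ℕ) (hn : 1 ≤ n) (k : ℤ) :
    bb n (k+1) = bb n k * ((n:ℝ)/2) * (4:ℝ)^((n:ℤ) - 2 * k - 1) := by
  have h0 : ((n:ℝ)/2) ≠ 0 := by
    have : (0:ℝ) < n := by exact_mod_cast hn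
    positivity
  unfold bb
  rw [zpow_add_one₀ h0]
  rw [show (k+1) * ((n:ℤ) - (k+1)) = k * ((n:ℤ) - k) + ((n:ℤ) - 2 * k - 1) by ring, zpow_add₀ (by norm_num)]
  ring

theorem aZ_nonneg (n : ℕ) (hn : 1 ≤ n) (k : ℤ) : 0 ≤ aZ n k := by
  unfold aZ
  split_ifs
  · exact mul_nonneg (q_nonneg _ _) (bb_pos n hn k).le
  · exact le_refl _

theorem bb_summable (n : ℕ) (hn : 1 ≤ n) : Summable (bb n) := by
  have hn0 : (0:ℝ) < n := by exact_mod_cast hn
  have hn1 : (1:ℝ) ≤ n := by exact_mod_cast hn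
  apply Summable.of_nat_of_neg
  · apply summable_of_ratio_norm_eventually_le (r := 1/2) (by norm_num)
    filter_upwards [eventually_ge_atTop n] with k hk
    rw [Real.norm_of_nonneg (bb_pos n hn _).le, Real.norm_of_nonneg (bb_pos n hn _).le]
    have h1 := bb_succ n hn (k:ℤ)
    rw [show (((k+1 : ℕ)) : ℤ) = (k:ℤ) + 1 by push_cast; rfl, h1]
    have h2 : (4:ℝ)^((n:ℤ) - 2 * k - 1) ≤ (4:ℝ)^(-(n:ℤ)) := by
      apply zpow_le_zpow_right₀ (by norm_num)
      omega
    have h3 : (n:ℝ) * (4:ℝ)^(-(n:ℤ)) ≤ 1 := by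
      rw [zpow_neg, zpow_natCast, ← div_eq_mul_inv, div_le_one (by positivity)]
      have : n < 4^n := Nat.lt_pow_self (by norm_num)
      exact_mod_cast this.le
    have h4 : ((n:ℝ)/2) * (4:ℝ)^((n:ℤ) - 2 * k - 1) ≤ 1/2 := by
      calc ((n:ℝ)/2) * (4:ℝ)^((n:ℤ) - 2 * k - 1) ≤ ((n:ℝ)/2) * (4:ℝ)^(-(n:ℤ)) :=
            mul_le_mul_of_nonneg_left h2 (by positivity)
        _ ≤ 1/2 := by linarith
    have := mul_le_mul_of_nonneg_left h4 (bb_pos n hn (k:ℤ)).le
    linarith
  · apply summable_of_ratio_norm_eventually_le (r := 1/2) (by norm_num)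
    filter_upwards with k
    rw [Real.norm_of_nonneg (bb_pos n hn _).le, Real.norm_of_nonneg (bb_pos n hn _).le]
    have h1 := bb_succ n hn (-((k+1 : ℕ) : ℤ))
    rw [show (-((k+1 : ℕ) : ℤ)) + 1 = -(k:ℤ) by push_cast; ring] at h1
    rw [h1]
    have h2 : (4:ℝ)^(1:ℤ) ≤ (4:ℝ)^((n:ℤ) - 2 * (-((k+1 : ℕ) : ℤ)) - 1) := by
      apply zpow_le_zpow_right₀ (by norm_num)
      push_cast
      omega
    rw [zpow_one] at h2
    have h3 : 2 ≤ ((n:ℝ)/2) * (4:ℝ)^((n:ℤ) - 2 * (-((k+1 : ℕ) : ℤ)) - 1) := by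
      nlinarith
    have := mul_le_mul_of_nonneg_left h3 (bb_pos n hn (-((k+1 : ℕ) : ℤ))).le
    nlinarith

theorem small_pow (n K : ℕ) (hn : 1 ≤ n) (hK : n < 2^K) (e : ℤ) (he : e ≤ -(2 * (K:ℤ))) :
    (4:ℝ)^e * (n:ℝ)^4 ≤ 1 := by
  have h1 : (4:ℝ)^e ≤ (4:ℝ)^(-(2 * (K:ℤ))) := zpow_le_zpow_right₀ (by norm_num) he
  have h2 : (4:ℝ)^(-(2 * (K:ℤ))) = ((2^K)^4)⁻¹ := by
    rw [zpow_neg]
    congr 1
    rw [show (2 * (K:ℤ)) = ((2 * K : ℕ) : ℤ) by push_cast; rfl, zpow_natCast, ← pow_mul,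
      show (4:ℝ) = 2^2 by norm_num, ← pow_mul]
    congr 1; ring
  have h3 : (n:ℝ)^4 ≤ (2^K)^4 := by
    apply pow_le_pow_left₀ (by positivity)
    exact_mod_cast hK.le
  rw [h2] at h1
  calc (4:ℝ)^e * (n:ℝ)^4 ≤ ((2^K)^4)⁻¹ * (2^K)^4 := mul_le_mul h1 h3 (by positivity) (by positivity)
    _ = 1 := by field_simp

/-- upper side: b k ≤ b (k-1) * (n/2) / n^4 -/
theorem bb_up (n K : ℕ) (hn : 1 ≤ n) (hK : n < 2^K) (k : ℤ) (hk : ((n/2 : ℕ) : ℤ) + K < k) :
    bb n k * (n:ℝ)^3 ≤ bb n (k-1) := by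
  have h1 := bb_succ n hn (k-1)
  rw [sub_add_cancel] at h1
  have h2 := small_pow n K hn hK ((n:ℤ) - 2 * (k-1) - 1) (by omega)
  rw [h1]
  have hb := (bb_pos n hn (k-1)).le
  have hn0 : (0:ℝ) < n := by exact_mod_cast hn
  calc bb n (k-1) * ((n:ℝ)/2) * (4:ℝ)^((n:ℤ) - 2 * (k-1) - 1) * (n:ℝ)^3 =
        bb n (k-1) * (((4:ℝ)^((n:ℤ) - 2 * (k-1) - 1) * (n:ℝ)^4) / 2) := by ring
    _ ≤ bb n (k-1) * 1 := by
        apply mul_le_mul_of_nonneg_left _ hb
        linarith
    _ = _ := by ring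

theorem bb_down (n K : ℕ) (hn : 1 ≤ n) (hK : n < 2^K) (k : ℤ) (hk : k + K < ((n/2 : ℕ) : ℤ)) :
    bb n k * (n:ℝ)^4 ≤ bb n (k+1) * (2 / n) := by
  have h1 := bb_succ n hn k
  have h2 := small_pow n K hn hK (-((n:ℤ) - 2 * k - 1)) (by omega)
  have hb := (bb_pos n hn k).le
  have hn0 : (0:ℝ) < n := by exact_mod_cast hn
  rw [h1]
  rw [zpow_neg] at h2
  have h4 : (0:ℝ) < (4:ℝ)^((n:ℤ) - 2 * k - 1) := by positivity
  have h5 : (n:ℝ)^4 ≤ (4:ℝ)^((n:ℤ) - 2 * k - 1) := by
    rw [inv_mul_le_iff₀ h4] at h2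
    linarith
  calc bb n k * (n:ℝ)^4 ≤ bb n k * (4:ℝ)^((n:ℤ) - 2 * k - 1) := mul_le_mul_of_nonneg_left h5 hb
    _ = _ := by field_simp

theorem q_zero (n r : ℕ) (h : n < r) : q n r = 0 := by
  unfold q
  rw [Nat.choose_eq_zero_of_lt h]
  simp

theorem bb_tail (n K : ℕ) (hn : 2 ≤ n) (hK : n < 2^K) (k : ℤ)
    (hk : k ∉ Finset.Icc (((n/2 : ℕ) : ℤ) - K) (((n/2 : ℕ) : ℤ) + K)) :
    bb n k ≤ (1/(n:ℝ)) * (bb n (k-1) + bb n (k+1)) := by
  have hn1 : 1 ≤ n := by omega
  have hn0 : (2:ℝ) ≤ n := by exact_mod_cast hn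
  have hb := (bb_pos n hn1 k).le
  have hb1 := (bb_pos n hn1 (k-1)).le
  have hb2 := (bb_pos n hn1 (k+1)).le
  rw [Finset.mem_Icc, not_and_or] at hk
  rw [one_div, ← div_eq_inv_mul, le_div_iff₀ (by linarith)]
  rcases hk with hk | hk
  · have h := bb_down n K hn1 hK k (by omega)
    have h1 : bb n (k+1) * (2/n) ≤ bb n (k+1) := by
      have : (2:ℝ)/n ≤ 1 := by rw [div_le_one (by linarith)]; exact hn0
      nlinarith
    have h2 : bb n k * n ≤ bb n k * (n:ℝ)^4 := by
      apply mul_le_mul_of_nonneg_left _ hb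
      calc (n:ℝ) = n^1 := by ring
        _ ≤ n^4 := pow_le_pow_right₀ (by linarith) (by norm_num)
    linarith
  · have h := bb_up n K hn1 hK k (by omega)
    have h2 : bb n k * n ≤ bb n k * (n:ℝ)^3 := by
      apply mul_le_mul_of_nonneg_left _ hb
      calc (n:ℝ) = n^1 := by ring
        _ ≤ n^3 := pow_le_pow_right₀ (by linarith) (by norm_num)
    linarith

theorem aZ_tail (n K : ℕ) (hn : 2 ≤ n) (hK : n < 2^K) (k : ℤ)
    (hk : k ∉ Finset.Icc (((n/2 : ℕ) : ℤ) - K) (((n/2 : ℕ) : ℤ) + K)) :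
    aZ n k ≤ (1/(n:ℝ)) * (aZ n (k-1) + aZ n (k+1)) := by
  have hn1 : 1 ≤ n := by omega
  have hn0 : (2:ℝ) ≤ n := by exact_mod_cast hn
  have ha1 := aZ_nonneg n hn1 (k-1)
  have ha2 := aZ_nonneg n hn1 (k+1)
  rw [one_div, ← div_eq_inv_mul, le_div_iff₀ (by linarith)]
  by_cases hk0 : 0 ≤ k
  swap
  · have : aZ n k = 0 := by unfold aZ; rw [if_neg hk0]
    rw [this]; linarith
  obtain ⟨r, rfl⟩ := Int.eq_ofNat_of_zero_le hk0
  have e0 : aZ n (r:ℤ) = q n r * bb n r := by unfold aZ; rw [if_pos hk0]; simp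
  by_cases hrn : n < r
  · rw [e0, q_zero n r hrn]; linarith
  push Not at hrn
  have hq := q_nonneg n r
  rw [Finset.mem_Icc, not_and_or] at hk
  rcases hk with hk | hk
  · have h := bb_down n K hn1 hK r (by omega)
    have hs := q_succ n r hn1 hrn
    have e1 : aZ n ((r:ℤ)+1) = q n (r+1) * bb n (r+1) := by
      unfold aZ; rw [if_pos (by omega)]
      congr 1
    have hr1 : r + 1 ≤ n := by omega
    have hr1' : (r:ℝ) + 1 ≤ n := by exact_mod_cast hr1
    -- q n r ≤ q n (r+1) * n^2/2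
    have h3 : q n r * 2 ≤ q n (r+1) * (n * n) := by
      calc q n r * 2 = q n r * (2 * 1^2) := by ring
        _ ≤ q n r * (2 * ((n:ℝ) - r)^2) := by
            apply mul_le_mul_of_nonneg_left _ hq
            have : (1:ℝ)^2 ≤ ((n:ℝ) - r)^2 := pow_le_pow_left₀ (by norm_num) (by linarith) 2
            linarith
        _ = q n (r+1) * (((r:ℝ)+1) * n) := hs.symm
        _ ≤ q n (r+1) * (n * n) := by
            apply mul_le_mul_of_nonneg_left _ (q_nonneg _ _)
            exact mul_le_mul_of_nonneg_right hr1' (by linarith)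
    have hb1 := (bb_pos n hn1 ((r:ℤ)+1)).le
    have hbr := (bb_pos n hn1 ((r:ℤ))).le
    have h4 : (q n r * 2) * (bb n r * (n:ℝ)^4) ≤ (q n (r+1) * (n * n)) * (bb n (r+1) * (2/n)) :=
      mul_le_mul h3 h (by positivity) (by have := q_nonneg n (r+1); positivity)
    have h5 : (q n (r+1) * ((n:ℝ) * n)) * (bb n (r+1) * (2/n)) = (aZ n ((r:ℤ)+1)) * (2 * n) := by
      rw [e1]; field_simp
    have h6 : (q n r * 2) * (bb n r * (n:ℝ)^4) = (aZ n r * n * n^2) * (2 * n) := by
      rw [e0]; ring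
    rw [h5, h6] at h4
    have h7 := le_of_mul_le_mul_right h4 (by positivity)
    have h8 : aZ n r * n * 1 ≤ aZ n r * n * n^2 := by
      apply mul_le_mul_of_nonneg_left
      · nlinarith
      · have := aZ_nonneg n hn1 r
        positivity
    linarith
  · have h := bb_up n K hn1 hK r (by omega)
    obtain ⟨r', rfl⟩ : ∃ r', r = r' + 1 := ⟨r - 1, by omega⟩
    have hs := q_succ n r' hn1 (by omega)
    have e1 : aZ n (((r'+1 : ℕ):ℤ) - 1) = q n r' * bb n r' := by
      unfold aZ; rw [if_pos (by push_cast; omega)]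
      rw [show (((r'+1 : ℕ):ℤ) - 1) = r' by push_cast; ring]
      simp
    rw [show (((r'+1 : ℕ):ℤ) - 1) = r' by push_cast; ring] at h
    have h3 : q n (r'+1) ≤ q n r' * (2 * n) := by
      have h4 : q n (r'+1) * (1 * n) ≤ q n r' * (2 * n) * n := by
        calc q n (r'+1) * (1 * n) ≤ q n (r'+1) * (((r':ℝ)+1) * n) := by
              apply mul_le_mul_of_nonneg_left _ (q_nonneg _ _)
              apply mul_le_mul_of_nonneg_right _ (by linarith)
              have : (0:ℝ) ≤ r' := by positivity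
              linarith
          _ = q n r' * (2 * ((n:ℝ)-r')^2) := hs
          _ ≤ q n r' * (2 * n) * n := by
              rw [mul_assoc]
              apply mul_le_mul_of_nonneg_left _ (q_nonneg _ _)
              have h5 : ((n:ℝ) - r')^2 ≤ n^2 := by
                have : (r':ℝ) + 1 ≤ n := by exact_mod_cast hrn
                apply pow_le_pow_left₀ (by linarith)
                have : (0:ℝ) ≤ r' := by positivity
                linarith
              nlinarith
      rw [one_mul] at h4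
      exact le_of_mul_le_mul_right h4 (by linarith)
    have hbr := (bb_pos n hn1 (((r'+1 : ℕ):ℤ))).le
    have h4 : (q n (r'+1)) * (bb n ((r'+1 : ℕ):ℤ) * (n:ℝ)^3) ≤ (q n r' * (2 * n)) * bb n r' :=
      mul_le_mul h3 h (by positivity) (by have := q_nonneg n r'; positivity)
    have h5 : (q n r' * (2 * n)) * bb n r' = aZ n (((r'+1 : ℕ):ℤ) - 1) * (2 * n) := by rw [e1]; ring
    have h6 : (q n (r'+1)) * (bb n ((r'+1 : ℕ):ℤ) * (n:ℝ)^3) = (aZ n ((r'+1 : ℕ):ℤ) * n) * (n * n) := by rw [e0]; ring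
    rw [h5, h6] at h4
    have ha := aZ_nonneg n hn1 ((r'+1 : ℕ):ℤ)
    have h7 : (aZ n ((r'+1 : ℕ):ℤ) * n) * (2 * n) ≤ aZ n (((r'+1 : ℕ):ℤ) - 1) * (2 * n) := by
      refine le_trans ?_ h4
      apply mul_le_mul_of_nonneg_left _ (by positivity)
      exact mul_le_mul_of_nonneg_right hn0 (by linarith)
    have h8 := le_of_mul_le_mul_right h7 (by positivity)
    linarith

theorem aZ_tsum (n : ℕ) (hn : 1 ≤ n) : Summable (aZ n) ∧ cc n * ∑' k, aZ n k = ff n := by
  have hsupp : ∀ k : ℤ, k ∉ (range (n+1)).map (Nat.castEmbedding (R := ℤ)) → aZ n k = 0 := by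
    intro k hk
    unfold aZ
    split_ifs with h0
    · obtain ⟨r, rfl⟩ := Int.eq_ofNat_of_zero_le h0
      have : n < r := by
        by_contra hr
        apply hk
        rw [Finset.mem_map]
        exact ⟨r, by rw [Finset.mem_range]; omega, rfl⟩
      simp [q_zero n r this]
    · rfl
  refine ⟨summable_of_ne_finset_zero hsupp, ?_⟩
  rw [tsum_eq_sum hsupp, Finset.sum_map, Finset.mul_sum]
  unfold ff
  rw [Nat.cast_sum]
  apply Finset.sum_congr rfl
  intro r hr
  have hr : r ≤ n := by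
    have := Finset.mem_range.1 hr
    omega
  have hn0 : (0:ℝ) < n := by exact_mod_cast hn
  have hc := cc_pos n hn
  simp only [Nat.castEmbedding_apply]
  unfold aZ
  rw [if_pos (by positivity)]
  rw [Int.toNat_natCast]
  unfold q bb
  rw [zpow_natCast]
  have e : (4:ℝ)^((r:ℤ) * ((n:ℤ) - r)) = 4^(r * (n - r)) := by
    rw [← zpow_natCast]
    congr 1
    push_cast [Nat.cast_sub hr]
    ring
  rw [e]
  push_cast
  field_simp

/-- closed form -/
noncomputable def gg (n : ℕ) : ℝ := cc n * ∑' k : ℤ, bb n k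

theorem ff_gg : Tendsto (fun n : ℕ => (ff n : ℝ) / gg n) atTop (𝓝 1) := by
  have hε : Tendsto (fun n : ℕ => 12 * (2 * Real.log n + 3)^2 / (n:ℝ)) atTop (𝓝 0) := by
    have l2 : Tendsto (fun x : ℝ => Real.log x ^ 2 / x) atTop (𝓝 0) :=
      (Real.isLittleO_pow_log_id_atTop (n := 2)).tendsto_div_nhds_zero
    have l1 : Tendsto (fun x : ℝ => Real.log x ^ 1 / x) atTop (𝓝 0) :=
      (Real.isLittleO_pow_log_id_atTop (n := 1)).tendsto_div_nhds_zero
    have l2' := l2.comp tendsto_natCast_atTop_atTop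
    have l1' := l1.comp tendsto_natCast_atTop_atTop
    have hinv : Tendsto (fun m : ℕ => ((m:ℝ))⁻¹) atTop (𝓝 0) := tendsto_inv_atTop_nhds_zero_nat
    have h := ((l2'.const_mul 48).add (l1'.const_mul 144)).add (hinv.const_mul 108)
    simp only [mul_zero, add_zero] at h
    refine h.congr (fun n => ?_)
    simp only [Function.comp]
    ring
  have hρ : Tendsto (fun n : ℕ => 1 - 2 * (1/(n:ℝ))) atTop (𝓝 1) := by
    have hinv : Tendsto (fun m : ℕ => ((m:ℝ))⁻¹) atTop (𝓝 0) := tendsto_inv_atTop_nhds_zero_nat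
    have := (hinv.const_mul 2).const_sub 1
    simp only [mul_zero, sub_zero] at this
    refine this.congr (fun n => by rw [one_div])
  have hD : Tendsto (fun n : ℕ => 1 - 12 * (2 * Real.log n + 3)^2 / (n:ℝ)) atTop (𝓝 1) := by
    have := hε.const_sub 1
    simpa using this
  have hlow : Tendsto (fun n : ℕ => q n (n/2) * (1 - 12 * (2 * Real.log n + 3)^2 / (n:ℝ)) * (1 - 2 * (1/(n:ℝ))))
      atTop (𝓝 1) := by
    have := (q_center.mul hD).mul hρ
    simpa using this
  have hup : Tendsto (fun n : ℕ => q n (n/2) / ((1 - 12 * (2 * Real.log n + 3)^2 / (n:ℝ)) * (1 - 2 * (1/(n:ℝ)))))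
      atTop (𝓝 1) := by
    have := q_center.div (hD.mul hρ) (by norm_num)
    rw [show (1:ℝ) / (1 * 1) = 1 by norm_num] at this
    exact this
  have main : ∀ᶠ n : ℕ in atTop,
      q n (n/2) * (1 - 12 * (2 * Real.log n + 3)^2 / (n:ℝ)) * (1 - 2 * (1/(n:ℝ))) ≤ (ff n : ℝ) / gg n ∧
      (ff n : ℝ) / gg n ≤ q n (n/2) / ((1 - 12 * (2 * Real.log n + 3)^2 / (n:ℝ)) * (1 - 2 * (1/(n:ℝ)))) := by
    filter_upwards [hε.eventually (gt_mem_nhds (show (0:ℝ) < 1/2 by norm_num)), eventually_ge_atTop 10] with n he hn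
    have hn1 : 1 ≤ n := by omega
    have hn0 : (10:ℝ) ≤ n := by exact_mod_cast hn
    set ε : ℝ := 12 * (2 * Real.log n + 3)^2 / (n:ℝ) with hεdef
    set K : ℕ := Nat.log 2 n + 1 with hK
    have hnK : n < 2^K := Nat.lt_pow_succ_log_self (by norm_num) n
    have hlog0 : 0 ≤ Real.log n := Real.log_nonneg (by linarith)
    have hKlog : (K:ℝ) ≤ 2 * Real.log n + 1 := by
      have h1 : ((2:ℝ))^(Nat.log 2 n) ≤ n := by exact_mod_cast Nat.pow_log_le_self 2 (by omega)
      have h2 := Real.log_le_log (by positivity) h1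
      rw [Real.log_pow] at h2
      have h3 := Real.log_two_gt_d9
      have h4 : (0:ℝ) ≤ (Nat.log 2 n : ℝ) := by positivity
      rw [hK]; push_cast
      nlinarith
    have hK0 : (1:ℝ) ≤ K := by rw [hK]; push_cast; have : (0:ℝ) ≤ (Nat.log 2 n : ℝ) := by positivity
                               linarith
    set t : ℝ := (2 * (K:ℝ) + 2)/n with ht
    have h6t : 6 * t ≤ ε := by
      rw [ht, hεdef, ← mul_div_assoc]
      apply div_le_div_of_nonneg_right _ (by linarith)
      nlinarith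
    have hDK : 6 * K * t ≤ ε := by
      rw [ht, hεdef, ← mul_div_assoc]
      apply div_le_div_of_nonneg_right _ (by linarith)
      nlinarith
    have h6t1 : 6 * t ≤ 1 := by linarith
    have hKn : K + 1 ≤ n/2 := by
      have h1 : 6 * (2 * (K:ℝ) + 2) ≤ n := by
        have h2 := h6t1
        rw [ht, ← mul_div_assoc, div_le_one (by linarith)] at h2
        exact h2
      have h2 : 6 * (2 * K + 2) ≤ n := by exact_mod_cast h1
      omega
    have hbs := bb_summable n hn1
    obtain ⟨has, hcc⟩ := aZ_tsum n hn1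
    set w : Finset ℤ := Finset.Icc (((n/2 : ℕ) : ℤ) - K) (((n/2 : ℕ) : ℤ) + K) with hw
    have tb := tail hbs (fun k => (bb_pos n hn1 k).le) w (1/(n:ℝ)) (by positivity)
      (fun k hk => bb_tail n K (by omega) hnK k hk)
    have ta := tail has (fun k => aZ_nonneg n hn1 k) w (1/(n:ℝ)) (by positivity)
      (fun k hk => aZ_tail n K (by omega) hnK k hk)
    have lb : ∑ k ∈ w, bb n k ≤ ∑' k, bb n k := hbs.sum_le_tsum w (fun k _ => (bb_pos n hn1 k).le)
    have la : ∑ k ∈ w, aZ n k ≤ ∑' k, aZ n k := has.sum_le_tsum w (fun k _ => aZ_nonneg n hn1 k)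
    have hBpos : 0 < ∑' k, bb n k := hbs.tsum_pos (fun k => (bb_pos n hn1 k).le) 0 (bb_pos n hn1 0)
    have hwin : ∀ k ∈ w, q n (n/2) * (1 - ε) * bb n k ≤ aZ n k ∧ aZ n k * (1 - ε) ≤ q n (n/2) * bb n k := by
      intro k hk
      rw [hw, Finset.mem_Icc] at hk
      have hk0 : 0 ≤ k := by omega
      obtain ⟨r, rfl⟩ := Int.eq_ofNat_of_zero_le hk0
      have e0 : aZ n (r:ℤ) = q n r * bb n r := by unfold aZ; rw [if_pos hk0]; simp
      obtain ⟨h1, h2⟩ := q_window n K t hn1 hKn rfl h6t1 r (by omega) (by omega)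
      have hb := (bb_pos n hn1 r).le
      have hq := q_nonneg n r
      have hqm := q_nonneg n (n/2)
      rw [e0]
      constructor
      · apply mul_le_mul_of_nonneg_right _ hb
        refine le_trans ?_ h1
        apply mul_le_mul_of_nonneg_left _ hqm
        linarith
      · rw [mul_right_comm]
        apply mul_le_mul_of_nonneg_right _ hb
        refine le_trans ?_ h2
        apply mul_le_mul_of_nonneg_left _ hq
        linarith
    have s1 : q n (n/2) * (1 - ε) * ∑ k ∈ w, bb n k ≤ ∑ k ∈ w, aZ n k := by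
      rw [Finset.mul_sum]
      exact Finset.sum_le_sum (fun k hk => (hwin k hk).1)
    have s2 : (∑ k ∈ w, aZ n k) * (1 - ε) ≤ q n (n/2) * ∑ k ∈ w, bb n k := by
      rw [Finset.mul_sum, Finset.sum_mul]
      exact Finset.sum_le_sum (fun k hk => (hwin k hk).2)
    have hratio : (ff n : ℝ) / gg n = (∑' k, aZ n k) / (∑' k, bb n k) := by
      unfold gg
      rw [← hcc]
      have hc := cc_pos n hn1
      field_simp
    rw [hratio]
    have hqm := q_nonneg n (n/2)
    have h2n : 2 * (1/(n:ℝ)) ≤ 1/2 := by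
      rw [one_div, ← div_eq_mul_inv, div_le_iff₀ (by linarith)]
      linarith
    have hρ0 : 0 < 1 - 2 * (1/(n:ℝ)) := by linarith
    have hε0 : 0 < 1 - ε := by linarith
    generalize 2 * (1/(n:ℝ)) = ρ at *
    generalize (∑' k, aZ n k) = A at *
    generalize (∑' k, bb n k) = B at *
    generalize (∑ k ∈ w, bb n k) = Bw at *
    generalize (∑ k ∈ w, aZ n k) = Aw at *
    have tb' : (1 - ρ) * B ≤ Bw := by linarith
    have ta' : (1 - ρ) * A ≤ Aw := by linarith
    constructor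
    · rw [le_div_iff₀ hBpos]
      calc q n (n/2) * (1 - ε) * (1 - ρ) * B = q n (n/2) * (1 - ε) * ((1 - ρ) * B) := by ring
        _ ≤ q n (n/2) * (1 - ε) * Bw := mul_le_mul_of_nonneg_left tb' (by positivity)
        _ ≤ Aw := s1
        _ ≤ A := la
    · rw [div_le_div_iff₀ hBpos (by positivity)]
      calc A * ((1 - ε) * (1 - ρ)) = ((1 - ρ) * A) * (1 - ε) := by ring
        _ ≤ Aw * (1 - ε) := mul_le_mul_of_nonneg_right ta' hε0.le
        _ ≤ q n (n/2) * Bw := s2
        _ ≤ q n (n/2) * B := mul_le_mul_of_nonneg_left lb hqm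
  exact tendsto_of_tendsto_of_tendsto_of_le_of_le' hlow hup (main.mono fun n h => h.1) (main.mono fun n h => h.2)

theorem closed : Tendsto (fun n : ℕ => (numRegular n : ℝ) /
    (2 * 4^n / (√(Real.pi * n) * Real.exp ((n:ℝ)/2)) *
      ∑' k : ℤ, ((n:ℝ)/2)^k * (4:ℝ)^(k * ((n:ℤ) - k)))) atTop (𝓝 1) := by
  have h := main.mul ff_gg
  rw [one_mul] at h
  refine h.congr (fun n => ?_)
  have hff : (0:ℝ) < ff n := lt_of_lt_of_le (by positivity) (ff_ge n)
  show (numRegular n : ℝ) / (ff n : ℝ) * ((ff n : ℝ) / gg n) = (numRegular n : ℝ) / gg n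
  field_simp

theorem gg_eq (n : ℕ) (hn : 1 ≤ n) : gg n =
    (2:ℝ)^((n:ℝ)^2/2 + 2 * n + 1) / √(Real.pi * n) * ((n:ℝ) / (2 * Real.exp 1))^((n:ℝ)/2) *
      Real.exp ((Real.log ((n:ℝ)/2))^2 / (8 * Real.log 2)) *
      ∑' k : ℤ, (4:ℝ)^(-((k:ℝ) - (n:ℝ)/2 - Real.log ((n:ℝ)/2) / (4 * Real.log 2))^2) := by
  have hn0 : (0:ℝ) < n := by exact_mod_cast hn
  set L : ℝ := Real.log ((n:ℝ)/2) with hL
  set y : ℝ := (n:ℝ)/2 + L / (4 * Real.log 2) with hy
  have hlog2 : 0 < Real.log 2 := Real.log_pos (by norm_num)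
  have hlog4 : Real.log 4 = 2 * Real.log 2 := by
    rw [show (4:ℝ) = 2^2 by norm_num, Real.log_pow]; push_cast; ring
  have hb : ∀ k : ℤ, bb n k = Real.exp (2 * Real.log 2 * y^2) *
      (4:ℝ)^(-((k:ℝ) - (n:ℝ)/2 - L / (4 * Real.log 2))^2) := by
    intro k
    unfold bb
    have e1 : ((n:ℝ)/2)^k = Real.exp (k * L) := by
      rw [hL, mul_comm, Real.exp_mul, Real.exp_log (by positivity), Real.rpow_intCast]
    have e2 : (4:ℝ)^(k * ((n:ℤ) - k)) = Real.exp ((2 * Real.log 2) * ((k:ℝ) * ((n:ℝ) - k))) := by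
      rw [← hlog4, Real.exp_mul, Real.exp_log (by norm_num), ← Real.rpow_intCast]
      push_cast
      rfl
    have e3 : (4:ℝ)^(-((k:ℝ) - (n:ℝ)/2 - L / (4 * Real.log 2))^2) =
        Real.exp ((2 * Real.log 2) * (-((k:ℝ) - (n:ℝ)/2 - L / (4 * Real.log 2))^2)) := by
      rw [← hlog4, Real.exp_mul, Real.exp_log (by norm_num)]
    rw [e1, e2, e3, ← Real.exp_add, ← Real.exp_add]
    congr 1
    rw [hy]
    field_simp
    ring
  unfold gg
  rw [tsum_congr hb, tsum_mul_left]
  rw [← mul_assoc]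
  congr 1
  unfold cc
  have e1 : (2:ℝ)^((n:ℝ)^2/2 + 2 * n + 1) = Real.exp (Real.log 2 * ((n:ℝ)^2/2 + 2 * n + 1)) := by
    rw [Real.exp_mul, Real.exp_log (by norm_num)]
  have e2 : ((n:ℝ) / (2 * Real.exp 1))^((n:ℝ)/2) = Real.exp ((L - 1) * ((n:ℝ)/2)) := by
    rw [Real.exp_mul]
    congr 1
    rw [hL, Real.exp_sub, Real.exp_log (by positivity)]
    field_simp
  have e3 : (2:ℝ) * 4^n = Real.exp (Real.log 2 * (2 * n + 1)) := by
    rw [Real.exp_mul, Real.exp_log (by norm_num), Real.rpow_add (by norm_num), Real.rpow_one,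
      Real.rpow_mul (by norm_num), Real.rpow_natCast]
    norm_num
    ring
  rw [e1, e2, e3]
  have hs : 0 < √(Real.pi * n) := by positivity
  rw [div_mul_eq_mul_div, div_mul_eq_mul_div, div_mul_eq_mul_div, div_eq_div_iff (by positivity) hs.ne']
  rw [← Real.exp_add, ← Real.exp_add, ← Real.exp_add]
  rw [mul_comm (√(Real.pi * n)) (Real.exp ((n:ℝ)/2)), ← mul_assoc, ← Real.exp_add]
  congr 2
  rw [hy]
  field_simp
  ring

theorem closed2 : Tendsto (fun n : ℕ => (numRegular n : ℝ) /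
    ((2:ℝ)^((n:ℝ)^2/2 + 2 * n + 1) / √(Real.pi * n) * ((n:ℝ) / (2 * Real.exp 1))^((n:ℝ)/2) *
      Real.exp ((Real.log ((n:ℝ)/2))^2 / (8 * Real.log 2)) *
      ∑' k : ℤ, (4:ℝ)^(-((k:ℝ) - (n:ℝ)/2 - Real.log ((n:ℝ)/2) / (4 * Real.log 2))^2))) atTop (𝓝 1) := by
  refine closed.congr' ?_
  filter_upwards [eventually_ge_atTop 1] with n hn
  rw [← gg_eq n hn]
  rfl

/-- Closed form asymptotics: an elementary function times a positive 1-periodic theta factor. -/
theorem result :
    Tendsto (fun n : ℕ => (numRegular n : ℝ) /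
      ((2:ℝ)^((n:ℝ)^2/2 + 2 * n + 1) / √(Real.pi * n) * ((n:ℝ) / (2 * Real.exp 1))^((n:ℝ)/2) *
        Real.exp ((Real.log ((n:ℝ)/2))^2 / (8 * Real.log 2)) *
        ∑' k : ℤ, (4:ℝ)^(-((k:ℝ) - (n:ℝ)/2 - Real.log ((n:ℝ)/2) / (4 * Real.log 2))^2)))
      atTop (𝓝 1) :=
  closed2

end Pool.Agent.Results.MP_72200a_co.RegularBooleanClosedForm
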